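import Pool.Agent.U297.VC.Main
import Pool.Agent.X288.L2.Inst

/-!
# Rational elliptic curves over number fields: combinations of fields and of twists on `Re s = 3/2`

`E : y² = x³ + a x + b` is a modular elliptic curve over `ℚ` (by the modularity theorem this is no
restriction; for the quadratic twists of `X_0(11)` and `X_0(14)` it is proved here).  The continuation of
`L(E/K, s)` is not known for general number fields `K`.  We consider products
`∏ L(E_{D_i}/K_i, s)^{c_i}`, `c_i` real, on the edge `Re s = 3/2` of the half plane of absolute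
convergence, for arbitrary number fields `K_i`, and the virtual character `ψ = ∑ c_i χ_i` of the Galois
group of `ℚ`, `χ_i` the character induced from the quadratic character of `K_i(√D_i)/K_i`.

* With `Q = κ(τ) mean(ψ²)`, `κ(0) = 1` and `κ(τ) = 1/2` for `τ ≠ 0`, the upper limit of
  `(log |∏ L(3/2 + iτ + ε)^{c_i}| / log (1/ε))²` is at most `Q`, and it is smaller than `Q` if
  `ψ(σ)² > 4Q` for some `σ`; and so for the orders.
* For the functions `L(E/K_i, s)` themselves `Q = κ(τ) ∑ c_i c_j r(K_i, K_j)`, where `r(K, L)` is the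
  number of the fields in `K ⊗ L`.  So if `r(F, F) + r(K, K) ≤ 2 r(F, K) + 1` and the degrees of `F` and
  `K` differ by at least three then `L(E/F, s)` and `L(E/K, s)` have the same order at all points of the
  line `Re s = 3/2`.  For example `F` and `K` may be the fields of the `(k-1)`-subsets and of the
  `k`-subsets, `2k ≤ n`, of the roots of a polynomial of degree `n ≥ 5` with symmetric or alternating Galois
  group; so for all these fields the orders agree with those of `L(E/ℚ, s)`.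
* If the representation induced from the quadratic character of `F(√D)/F` is irreducible and the degree
  of `F` is at least three, then `L(E_D/F, s)` has order zero at all points of the line, and
  `L(E/F(√D), s)` and `L(E/F, s)` have the same order at all points of the line.

The point `3/2` is the main point: here the inequality `m² ≤ Q` alone does not suffice.

The proof uses the library theorem `Pool.Agent.X288.L2.sqT` (Rankin-Selberg and Hasse's bound
together); the numbers `r(K, L)` are computed with Burnside's lemma, and for a quadratic extension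
`K = F(√D)` the permutation character of `K` is the sum of the one of `F` and of the character of the
twist.
-/

set_option autoImplicit false
open Classical

namespace Pool.Agent.Results.MP_bf9450_nt.FieldCombinations

open NumberField IsDedekindDomain Filter Topology
open Pool.Agent.X288.L2 (EC IrrTwist kappa₂)
open Pool.Agent.TH322.BC.Edge (TwistOver MinimalModels size HasOrder LimsupLE character)
open Pool.Agent.Y722.EP (IsModular)
open Pool.Agent.W353.EF (perm)
open Pool.Agent.U297.VC (orbits)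

/-- `limsup x(ε)² ≤ Q` as `ε → 0+`, with strict inequality if `strict` holds. -/
def SquareLE (x : ℝ → ℝ) (Q : ℝ) (strict : Prop) : Prop :=
  (∀ η : ℝ, 0 < η → ∀ᶠ ε : ℝ in 𝓝[>] 0, x ε ^ 2 ≤ Q + η) ∧
  (strict → ∃ B : ℝ, 0 ≤ B ∧ B ^ 2 < Q ∧ LimsupLE x B)

/-- The mean value over the quotient by an open subgroup `U` of a function on the Galois group. -/
noncomputable def mean (U : Subgroup Gal(AlgebraicClosure ℚ/ℚ))
    (f : Gal(AlgebraicClosure ℚ/ℚ) → ℝ) : ℝ :=
  (Nat.card (Gal(AlgebraicClosure ℚ/ℚ) ⧸ U) : ℝ)⁻¹ *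
    ∑ᶠ q : Gal(AlgebraicClosure ℚ/ℚ) ⧸ U, f q.out

/-- **Combinations of twists.**  Let `E_{D_i}` be finitely many quadratic twists of `E` over number
fields `F_i`, `c_i` real numbers, `ψ = ∑ c_i χ_i`, where `χ_i` is the character induced from the quadratic
character of `F_i(√D_i)/F_i`, `τ` real and `Q = κ(τ) mean(ψ²)`.  Then
`limsup (∑ c_i log |L(E_{D_i}/F_i, 3/2 + iτ + ε)| / log(1/ε))² ≤ Q`, with strict inequality if
`4 Q < ψ(σ)²` for some `σ`.  If the functions have continuations to neighbourhoods of `3/2 + iτ`, of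
orders `m_i` at this point, then `(∑ c_i m_i)² ≤ Q`, with strict inequality if `4 Q < ψ(σ)²` for some `σ`;
if the `c_i` are integers and if `Q < 1`, or `Q ≤ 1` and `|ψ(σ)| ≥ 3` for some `σ`, then `∑ c_i m_i = 0`.
The mean value is taken over the quotient by any open normal subgroup `U` which acts trivially on the
conjugates of the fields and of the `√D_i`. -/
def Twists (a b : ℤ) : Prop :=
  ∀ (ι : Type) [Fintype ι] (F : ι → Type) [∀ i, Field (F i)] [∀ i, NumberField (F i)]
    [∀ i, Algebra ℚ (F i)] (X : ∀ i, TwistOver (EC ℚ a b) (F i))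
    (U : Subgroup Gal(AlgebraicClosure ℚ/ℚ)) [U.Normal],
    IsOpen (U : Set Gal(AlgebraicClosure ℚ/ℚ)) →
    (∀ i, ∀ u ∈ U, perm ℚ (F i) u = 1 ∧ ∀ j : F i →ₐ[ℚ] AlgebraicClosure ℚ,
      ∀ s : AlgebraicClosure ℚ, s ^ 2 = j (X i).D → u s = s) →
    ∀ (τ : ℝ) (c : ι → ℝ) (ψ : Gal(AlgebraicClosure ℚ/ℚ) → ℝ) (Q : ℝ),
      (∀ σ, ψ σ = ∑ i, c i * (character (K := ℚ) ((X i).D : F i) σ : ℝ)) →
      Q = kappa₂ τ * mean U (fun σ => ψ σ ^ 2) →
      SquareLE (fun ε => ∑ i, c i * size (X i).V τ ε) Q (∃ σ, 4 * Q < ψ σ ^ 2) ∧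
      ∀ m : ι → ℤ, (∀ i, HasOrder (X i).V τ (m i)) →
        (∑ i, c i * (m i : ℝ)) ^ 2 ≤ Q ∧
        ((∃ σ, 4 * Q < ψ σ ^ 2) → (∑ i, c i * (m i : ℝ)) ^ 2 < Q) ∧
        ((∀ i, ∃ z : ℤ, c i = z) → (Q < 1 ∨ Q ≤ 1 ∧ ∃ σ, 3 ≤ |ψ σ|) →
          ∑ i, c i * (m i : ℝ) = 0)

/-- **Combinations of fields.**  Let `K_i` be finitely many number fields, `c_i` real numbers,
`n = ∑ c_i [K_i : ℚ]`, `τ` real and `Q = κ(τ) ∑ c_i c_j r(K_i, K_j)`, where `r(K, L)` is the number of the
orbits of the Galois group on the pairs of embeddings of `K` and `L`, which is the number of fields in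
`K ⊗ L`.  Then `limsup (∑ c_i log |L(E/K_i, 3/2 + iτ + ε)| / log(1/ε))² ≤ Q`, with strict inequality if
`4 Q < n²`.  If the functions have continuations to neighbourhoods of `3/2 + iτ`, of orders `m_i` at this
point, then `(∑ c_i m_i)² ≤ Q`, with strict inequality if `4 Q < n²`; if the `c_i` are integers and if
`Q < 1`, or `Q ≤ 1` and `|n| ≥ 3`, then `∑ c_i m_i = 0`. -/
def Fields (a b : ℤ) : Prop :=
  ∀ (ι : Type) [Fintype ι] (K : ι → Type) [∀ i, Field (K i)] [∀ i, NumberField (K i)]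
    [∀ i, Algebra ℚ (K i)] (V : ∀ i, HeightOneSpectrum (𝓞 (K i)) → WeierstrassCurve (𝓞 (K i))),
    (∀ i, MinimalModels ((EC ℚ a b).map (algebraMap ℚ (K i))) (V i)) →
    ∀ (τ : ℝ) (c : ι → ℝ) (Q n : ℝ),
      Q = kappa₂ τ * ∑ i, ∑ j, c i * c j * orbits ℚ (K i) (K j) →
      n = ∑ i, c i * (Module.finrank ℚ (K i) : ℝ) →
      SquareLE (fun ε => ∑ i, c i * size (V i) τ ε) Q (4 * Q < n ^ 2) ∧
      ∀ m : ι → ℤ, (∀ i, HasOrder (V i) τ (m i)) →
        (∑ i, c i * (m i : ℝ)) ^ 2 ≤ Q ∧
        (4 * Q < n ^ 2 → (∑ i, c i * (m i : ℝ)) ^ 2 < Q) ∧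
        ((∀ i, ∃ z : ℤ, c i = z) → (Q < 1 ∨ Q ≤ 1 ∧ 3 ≤ |n|) → ∑ i, c i * (m i : ℝ) = 0)

/-- **Two fields.**  Let `F`, `K` be number fields with `r(F, F) + r(K, K) ≤ 2 r(F, K) + 1`, and suppose
that the degrees of `F` and `K` differ by at least `3`, or that `τ ≠ 0`.  Then
`limsup |log |L(E/K, 3/2 + iτ + ε) / L(E/F, 3/2 + iτ + ε)|| / log(1/ε) < 1`, and if the functions have
continuations to neighbourhoods of `3/2 + iτ` then they have the same order at this point. -/
def TwoFields (a b : ℤ) : Prop :=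
  ∀ (F K : Type) [Field F] [NumberField F] [Algebra ℚ F] [Field K] [NumberField K] [Algebra ℚ K]
    (V : HeightOneSpectrum (𝓞 F) → WeierstrassCurve (𝓞 F))
    (W : HeightOneSpectrum (𝓞 K) → WeierstrassCurve (𝓞 K)),
    MinimalModels ((EC ℚ a b).map (algebraMap ℚ F)) V →
    MinimalModels ((EC ℚ a b).map (algebraMap ℚ K)) W →
    orbits ℚ F F + orbits ℚ K K ≤ 2 * orbits ℚ F K + 1 →
    ∀ τ : ℝ, (τ ≠ 0 ∨ Module.finrank ℚ F + 3 ≤ Module.finrank ℚ K ∨
      Module.finrank ℚ K + 3 ≤ Module.finrank ℚ F) →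
      (∃ B : ℝ, B < 1 ∧ LimsupLE (fun ε => size W τ ε - size V τ ε) B) ∧
      ∀ m n : ℤ, HasOrder V τ m → HasOrder W τ n → n = m

/-- **Irreducible monomial twists.**  Let `F` be a number field and `E_D` a quadratic twist of `E` over
`F` such that the representation induced from the quadratic character of `F(√D)/F` is irreducible
(`i(D) j(D)` is not a square in `i(F) j(F)` for different embeddings `i`, `j`), and `τ ≠ 0` or
`[F : ℚ] ≥ 3`.  Then `limsup |log |L(E_D/F, 3/2 + iτ + ε)|| / log(1/ε) < 1`, and if the function has a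
continuation to a neighbourhood of `3/2 + iτ` then its order at this point is zero. -/
def MonomialTwists (a b : ℤ) : Prop :=
  ∀ (F : Type) [Field F] [NumberField F] [Algebra ℚ F] (X : TwistOver (EC ℚ a b) F),
    IrrTwist ℚ (X.D : F) → ∀ τ : ℝ, (τ ≠ 0 ∨ 3 ≤ Module.finrank ℚ F) →
      (∃ B : ℝ, B < 1 ∧ LimsupLE (size X.V τ) B) ∧ ∀ m : ℤ, HasOrder X.V τ m → m = 0

/-- **Quadratic extensions.**  Let `F` be a number field and `K = F(√D)` a quadratic extension such that
the representation induced from its quadratic character is irreducible, and `τ ≠ 0` or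
`[F : ℚ] ≥ 3`.  Then `limsup |log |L(E/K, 3/2 + iτ + ε) / L(E/F, 3/2 + iτ + ε)|| / log(1/ε) < 1`, and if
the functions have continuations to neighbourhoods of `3/2 + iτ` then they have the same order at this
point. -/
def QuadraticExtensions (a b : ℤ) : Prop :=
  ∀ (F K : Type) [Field F] [NumberField F] [Algebra ℚ F] [Field K] [NumberField K] [Algebra ℚ K]
    [Algebra F K] [IsScalarTower ℚ F K] (D : F) (s : K), Module.finrank F K = 2 →
    s ^ 2 = algebraMap F K D → (∀ x : F, algebraMap F K x ≠ s) → IrrTwist ℚ D →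
    ∀ (V : HeightOneSpectrum (𝓞 F) → WeierstrassCurve (𝓞 F))
      (W : HeightOneSpectrum (𝓞 K) → WeierstrassCurve (𝓞 K)),
      MinimalModels ((EC ℚ a b).map (algebraMap ℚ F)) V →
      MinimalModels ((EC ℚ a b).map (algebraMap ℚ K)) W →
      ∀ τ : ℝ, (τ ≠ 0 ∨ 3 ≤ Module.finrank ℚ F) →
        (∃ B : ℝ, B < 1 ∧ LimsupLE (fun ε => size W τ ε - size V τ ε) B) ∧
        ∀ m n : ℤ, HasOrder V τ m → HasOrder W τ n → n = m

theorem int_conc {ι : Type} [Fintype ι] {c : ι → ℝ} (hc : ∀ i, ∃ z : ℤ, c i = z) {m : ι → ℤ}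
    (h : (∑ i, c i * (m i : ℝ)) ^ 2 < 1) : ∑ i, c i * (m i : ℝ) = 0 := by
  choose z hz using hc
  have e : ∑ i, c i * (m i : ℝ) = ((∑ i, z i * m i : ℤ) : ℝ) := by
    push_cast
    exact Finset.sum_congr rfl fun i _ => by rw [hz i]
  rw [e] at h ⊢
  rw [Pool.Agent.U297.VC.int_zero h]
  exact Int.cast_zero

theorem lt_one {M Q y : ℝ} (h1 : M ^ 2 ≤ Q) (h2 : 4 * Q < y ^ 2 → M ^ 2 < Q)
    (h : Q < 1 ∨ Q ≤ 1 ∧ 3 ≤ |y|) : M ^ 2 < 1 := by
  rcases h with h | ⟨h, h3⟩
  · exact lt_of_le_of_lt h1 h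
  · refine lt_of_lt_of_le (h2 ?_) h
    rw [← sq_abs y]
    nlinarith

theorem twists {a b : ℤ} (hab : 4 * a ^ 3 + 27 * b ^ 2 ≠ 0) (hmod : IsModular a b) :
    Twists a b := by
  intro ι _ F _ _ _ X U hUn hU hker τ c ψ Q hψ hQ
  have h := @Pool.Agent.U297.VC.twists_sq a b hab hmod ι _ F _ _ _ X U hUn hU hker τ c
  have e2 : kappa₂ τ * (Pool.Agent.W353.L1.avR U fun q => ψ q.out ^ 2) = Q := by
    rw [hQ]
    rfl
  simp only [← hψ] at h
  rw [e2] at h
  obtain ⟨⟨h1, h2⟩, h3⟩ := h
  refine ⟨⟨h1, h2⟩, fun m hm => ?_⟩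
  have h4 := Pool.Agent.U297.VC.conc_le (h3 m hm) h1
  have h5 : (∃ σ, 4 * Q < ψ σ ^ 2) → (∑ i, c i * (m i : ℝ)) ^ 2 < Q := fun h' =>
    Pool.Agent.U297.VC.conc_lt (h3 m hm) (h2 h')
  refine ⟨h4, h5, fun hc hQ1 => int_conc hc ?_⟩
  rcases hQ1 with h6 | ⟨h6, σ, hσ⟩
  · exact lt_of_le_of_lt h4 h6
  · exact lt_one h4 (fun h' => h5 ⟨σ, h'⟩) (Or.inr ⟨h6, hσ⟩)

theorem fields {a b : ℤ} (hab : 4 * a ^ 3 + 27 * b ^ 2 ≠ 0) (hmod : IsModular a b) :
    Fields a b := by
  intro ι _ K _ _ _ V hV τ c Q n hQ hn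
  have h := Pool.Agent.U297.VC.fields_sq hab hmod K V hV τ c Q hQ
  rw [← hn] at h
  obtain ⟨⟨h1, h2⟩, h3⟩ := h
  refine ⟨⟨h1, h2⟩, fun m hm => ?_⟩
  have h4 := Pool.Agent.U297.VC.conc_le (h3 m hm) h1
  have h5 : 4 * Q < n ^ 2 → (∑ i, c i * (m i : ℝ)) ^ 2 < Q := fun h' =>
    Pool.Agent.U297.VC.conc_lt (h3 m hm) (h2 h')
  exact ⟨h4, h5, fun hc hQ1 => int_conc hc (lt_one h4 h5 hQ1)⟩

theorem kappa_le (τ : ℝ) : 0 < kappa₂ τ ∧ kappa₂ τ ≤ 1 := by
  unfold kappa₂
  split_ifs <;> norm_num

theorem twoFields {a b : ℤ} (hab : 4 * a ^ 3 + 27 * b ^ 2 ≠ 0) (hmod : IsModular a b) :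
    TwoFields a b := by
  intro F K _ _ _ _ _ _ V W hV hW horb τ hτ
  let Kk : Bool → Type := fun t => match t with
    | true => K
    | false => F
  let i1 : ∀ t, Field (Kk t) := fun t => match t with
    | true => (inferInstance : Field K)
    | false => (inferInstance : Field F)
  let i2 : ∀ t, NumberField (Kk t) := fun t => match t with
    | true => (inferInstance : NumberField K)
    | false => (inferInstance : NumberField F)
  let i3 : ∀ t, Algebra ℚ (Kk t) := fun t => match t with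
    | true => (inferInstance : Algebra ℚ K)
    | false => (inferInstance : Algebra ℚ F)
  let VV : ∀ t, HeightOneSpectrum (𝓞 (Kk t)) → WeierstrassCurve (𝓞 (Kk t)) := fun t =>
    match t with
    | true => W
    | false => V
  have hVV : ∀ t, MinimalModels ((EC ℚ a b).map (algebraMap ℚ (Kk t))) (VV t) := fun t =>
    match t with
    | true => hW
    | false => hV
  let c : Bool → ℝ := fun t => if t then 1 else -1
  obtain ⟨hκ0, hκ1⟩ := kappa_le τ
  set R : ℝ := (orbits ℚ K K : ℝ) - 2 * orbits ℚ F K + orbits ℚ F F with hR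
  have hR1 : R ≤ 1 := by
    have : (orbits ℚ F F : ℝ) + orbits ℚ K K ≤ 2 * orbits ℚ F K + 1 := by exact_mod_cast horb
    rw [hR]
    linarith
  have hQ : kappa₂ τ * R = kappa₂ τ * ∑ i, ∑ j, c i * c j * orbits ℚ (Kk i) (Kk j) := by
    congr 1
    simp only [Fintype.sum_bool]
    have e1 : orbits ℚ (Kk true) (Kk true) = orbits ℚ K K := rfl
    have e2 : orbits ℚ (Kk true) (Kk false) = orbits ℚ K F := rfl
    have e3 : orbits ℚ (Kk false) (Kk true) = orbits ℚ F K := rfl
    have e4 : orbits ℚ (Kk false) (Kk false) = orbits ℚ F F := rfl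
    have e5 : c true = 1 := rfl
    have e6 : c false = -1 := by simp [c]
    rw [e1, e2, e3, e4, e5, e6, Pool.Agent.U297.VC.orbits_comm K F]
    rw [hR]
    ring
  have hn : (Module.finrank ℚ K : ℝ) - Module.finrank ℚ F =
      ∑ i, c i * (Module.finrank ℚ (Kk i) : ℝ) := by
    simp only [Fintype.sum_bool]
    have e1 : Module.finrank ℚ (Kk true) = Module.finrank ℚ K := rfl
    have e2 : Module.finrank ℚ (Kk false) = Module.finrank ℚ F := rfl
    have e5 : c true = 1 := rfl
    have e6 : c false = -1 := by simp [c]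
    rw [e1, e2, e5, e6]
    ring
  obtain ⟨⟨h1, h2⟩, h3⟩ := fields hab hmod Bool Kk VV hVV τ c _ _ hQ hn
  have ex : ∀ ε, ∑ i, c i * size (VV i) τ ε = size W τ ε - size V τ ε := by
    intro ε
    simp only [Fintype.sum_bool]
    have e1 : size (VV true) τ ε = size W τ ε := rfl
    have e2 : size (VV false) τ ε = size V τ ε := rfl
    have e5 : c true = 1 := rfl
    have e6 : c false = -1 := by simp [c]
    rw [e1, e2, e5, e6]
    ring
  simp only [ex] at h1 h2
  have hQ1 : kappa₂ τ * R < 1 ∨ kappa₂ τ * R ≤ 1 ∧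
      3 ≤ |(Module.finrank ℚ K : ℝ) - Module.finrank ℚ F| := by
    rcases hτ with h | h | h
    · left
      have : kappa₂ τ = 1 / 2 := by
        unfold kappa₂
        rw [if_neg h]
      rw [this]
      linarith
    · right
      refine ⟨by nlinarith, ?_⟩
      have : (Module.finrank ℚ F : ℝ) + 3 ≤ Module.finrank ℚ K := by exact_mod_cast h
      exact le_trans (by linarith) (le_abs_self _)
    · right
      refine ⟨by nlinarith, ?_⟩
      have : (Module.finrank ℚ K : ℝ) + 3 ≤ Module.finrank ℚ F := by exact_mod_cast h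
      exact le_trans (by linarith) (neg_le_abs _)
  constructor
  · rcases hQ1 with h4 | ⟨h4, h5⟩
    · set q : ℝ := max (kappa₂ τ * R) 0 with hq
      have hq0 : 0 ≤ q := le_max_right _ _
      have hq1 : q < 1 := max_lt h4 one_pos
      have hsq : Real.sqrt ((q + 1) / 2) < 1 := by
        rw [Real.sqrt_lt' one_pos]
        linarith
      refine ⟨Real.sqrt ((q + 1) / 2), hsq, fun η hη => ?_⟩
      filter_upwards [h1 ((1 - q) / 2) (by linarith)] with ε hε
      have h6 : |size W τ ε - size V τ ε| ≤ Real.sqrt ((q + 1) / 2) := by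
        refine Real.abs_le_sqrt ?_
        have := le_max_left (kappa₂ τ * R) 0
        linarith
      linarith
    · obtain ⟨B, hB0, hB, hlim⟩ := h2 (by
        rw [← sq_abs ((Module.finrank ℚ K : ℝ) - Module.finrank ℚ F)]
        nlinarith)
      exact ⟨B, by nlinarith, hlim⟩
  · intro m n hm hn'
    have h6 := (h3 (fun t => if t then n else m) (fun t => match t with
      | true => hn'
      | false => hm)).2.2 (fun t => match t with
      | true => ⟨1, by simp [c]⟩
      | false => ⟨-1, by simp [c]⟩) hQ1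
    simp only [Fintype.sum_bool] at h6
    have h7 : (n : ℝ) - m = 0 := by
      simpa [c, sub_eq_add_neg] using h6
    have h8 : (n : ℝ) = m := by linarith
    exact_mod_cast h8

/-- **Combinations of number fields and of twists.**  For every modular elliptic curve `E` over `ℚ` the
five theorems `Twists`, `Fields`, `TwoFields`, `MonomialTwists` and `QuadraticExtensions` on the products
of the L-functions of `E` and of its twists over number fields hold on the line `Re s = 3/2`, and the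
quadratic twists of `X_0(11)` and `X_0(14)` are modular. -/
theorem result :
    (∀ a b : ℤ, 4 * a ^ 3 + 27 * b ^ 2 ≠ 0 → IsModular a b →
      Twists a b ∧ Fields a b ∧ TwoFields a b ∧ MonomialTwists a b ∧ QuadraticExtensions a b) ∧
    ∀ g : ℤ, g ≠ 0 → IsModular (-13392 * g ^ 2) (-1080432 * g ^ 3) ∧
      IsModular (5805 * g ^ 2) (-285714 * g ^ 3) := by
  refine ⟨fun a b hab hmod => ⟨twists hab hmod, fields hab hmod, twoFields hab hmod, ?_, ?_⟩,
    fun g hg => ⟨Pool.Agent.X288.L2.modular11 hg, Pool.Agent.X288.L2.modular14 hg⟩⟩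
  · intro F _ _ _ X hX τ hτ
    exact Pool.Agent.X288.L2.irr_twist hab hmod X hX τ hτ
  · intro F K _ _ _ _ _ _ _ _ D s h2 hs hns hirr V W hV hW τ hτ
    exact Pool.Agent.U297.VC.quad_ext hab hmod h2 hs hns hirr hV hW τ hτ

end Pool.Agent.Results.MP_bf9450_nt.FieldCombinations
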