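import Pool.Agent.U823.JL.Expl
import Pool.Agent.U823.UA.Uniq

/-!
# The joint law of the functions `L(E/K, s)`, for elliptic curves over `ℚ` and number fields, on the edge
-/

set_option autoImplicit false

namespace Pool.Agent.Results.MP_bf9450_nt.JointLaw

open NumberField IsDedekindDomain MeasureTheory Filter Topology

/-- `W v` is, for every finite place `v`, an integral model of `E` with discriminant minimal at
`v`. -/
def MinimalModels {K : Type} [Field K] [NumberField K] (E : WeierstrassCurve K)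
    (W : HeightOneSpectrum (𝓞 K) → WeierstrassCurve (𝓞 K)) : Prop :=
  ∀ v : HeightOneSpectrum (𝓞 K),
    (∃ C : WeierstrassCurve.VariableChange K, C • (W v).map (algebraMap (𝓞 K) K) = E) ∧
    ∀ W' : WeierstrassCurve (𝓞 K),
      (∃ C : WeierstrassCurve.VariableChange K, C • W'.map (algebraMap (𝓞 K) K) = E) →
      ∀ n : ℕ, (W v).Δ ∈ v.asIdeal ^ n → W'.Δ ∈ v.asIdeal ^ n

open Classical in
/-- The Euler factor at `v`, `(1 - a_v Nv^{-s} + Nv^{1-2s})⁻¹` if the reduction at `v` is good and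
`(1 - a_v Nv^{-s})⁻¹` if it is bad, where `a_v` is `Nv` minus the number of affine points of the
reduction of `W v` (for bad reduction this is `1`, `-1`, `0` in the split multiplicative, non-split
multiplicative, additive case). -/
noncomputable def localFactor {K : Type} [Field K] [NumberField K]
    (W : HeightOneSpectrum (𝓞 K) → WeierstrassCurve (𝓞 K)) (v : HeightOneSpectrum (𝓞 K))
    (s : ℂ) : ℂ :=
  (1 - ((Ideal.absNorm v.asIdeal : ℂ)
        - (Nat.card {xy : (𝓞 K ⧸ v.asIdeal) × (𝓞 K ⧸ v.asIdeal) //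
            ((W v).map (Ideal.Quotient.mk v.asIdeal)).toAffine.Equation xy.1 xy.2} : ℂ))
        * (Ideal.absNorm v.asIdeal : ℂ) ^ (-s)
    + (if (W v).Δ ∈ v.asIdeal then 0 else (Ideal.absNorm v.asIdeal : ℂ))
        * (Ideal.absNorm v.asIdeal : ℂ) ^ (-2 * s))⁻¹

/-- The `L`-function, as the Euler product over all finite places. -/
noncomputable def LSeries {K : Type} [Field K] [NumberField K]
    (W : HeightOneSpectrum (𝓞 K) → WeierstrassCurve (𝓞 K)) (s : ℂ) : ℂ :=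
  ∏' v : HeightOneSpectrum (𝓞 K), localFactor W v s

/-- The sum of `a_v = p - (number of affine points of the reduction of W v)` over the places `v` of
norm `p`. -/
noncomputable def traceSum {K : Type} [Field K] [NumberField K]
    (W : HeightOneSpectrum (𝓞 K) → WeierstrassCurve (𝓞 K)) (p : ℕ) : ℤ :=
  ∑ᶠ v ∈ {v : HeightOneSpectrum (𝓞 K) | Ideal.absNorm v.asIdeal = p},
    ((p : ℤ) - (Nat.card {xy : (𝓞 K ⧸ v.asIdeal) × (𝓞 K ⧸ v.asIdeal) //
      ((W v).map (Ideal.Quotient.mk v.asIdeal)).toAffine.Equation xy.1 xy.2} : ℤ))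

/-- The point `3/2 + iτ` of the edge. -/
noncomputable def edge (τ : ℝ) : ℂ := 3 / 2 + τ * Complex.I

/-- The angle `|s - (3/2 + iτ)| ≤ C (Re s - 3/2)` in the half-plane `Re s > 3/2`. -/
def angle (τ C : ℝ) : Set ℂ :=
  {s : ℂ | 3 / 2 < s.re ∧ ‖s - edge τ‖ ≤ C * (s.re - 3 / 2)}

/-- `l` is a boundary function of `L(E/K, s)`: outside a set of real numbers `τ` of Hausdorff
dimension `0`, the L-function tends to `l τ` as `s` tends to `3/2 + iτ` in any angle. -/
def IsBoundary {K : Type} [Field K] [NumberField K]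
    (W : HeightOneSpectrum (𝓞 K) → WeierstrassCurve (𝓞 K)) (l : ℝ → ℂ) : Prop :=
  ∃ N : Set ℝ, dimH N = 0 ∧ ∀ τ : ℝ, τ ∉ N → ∀ C : ℝ,
    Tendsto (LSeries W) (𝓝[angle τ C] (edge τ)) (𝓝 (l τ))

lemma traceSum_eq {K : Type} [Field K] [NumberField K]
    (W : HeightOneSpectrum (𝓞 K) → WeierstrassCurve (𝓞 K)) (p : Nat.Primes) :
    (traceSum W p : ℝ) = ∑ v ∈ (Pool.Agent.U823.JL.Np p : Finset (HeightOneSpectrum (𝓞 K))),
      Pool.Agent.TH339.MP.av W v := by
  have hset : {v : HeightOneSpectrum (𝓞 K) | Ideal.absNorm v.asIdeal = p} =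
      ((Pool.Agent.U823.JL.Np p : Finset (HeightOneSpectrum (𝓞 K))) : Set _) := by
    ext v
    rw [Finset.mem_coe, Pool.Agent.U823.JL.mem_Np]
    exact Iff.rfl
  unfold traceSum
  rw [hset, finsum_mem_coe_finset]
  push_cast
  refine Finset.sum_congr rfl fun v hv => ?_
  have h1 : (Nat.card {xy : (𝓞 K ⧸ v.asIdeal) × (𝓞 K ⧸ v.asIdeal) //
      ((W v).map (Ideal.Quotient.mk v.asIdeal)).toAffine.Equation xy.1 xy.2}) =
      Pool.Agent.TH339.MP.affc ((W v).map (Ideal.Quotient.mk v.asIdeal)) := by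
    unfold Pool.Agent.TH339.MP.affc
    refine Nat.card_congr (Equiv.subtypeEquivRight fun q => ?_)
    exact WeierstrassCurve.Affine.equation_iff ..
  have h2 := (Pool.Agent.U823.JL.mem_Np p v).1 hv
  unfold Pool.Agent.TH339.MP.av
  rw [h1, h2]

/-- the boundary function is, up to a null set, the exponential of the boundary series -/
lemma structure_thm {K : Type} [Field K] [NumberField K]
    (W : HeightOneSpectrum (𝓞 K) → WeierstrassCurve (𝓞 K)) :
    ∃ b : Pool.Agent.TH339.MP.PP → ℂ,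
      (∀ x, ‖b x‖ ≤ ((Module.finrank ℚ K : ℝ) * 2) / (x.2 + 1 : ℕ)) ∧
      (∀ p : Nat.Primes, 5 ≤ (p : ℕ) →
        b (p, 0) = (((traceSum W p : ℝ) * (Real.sqrt (p : ℕ))⁻¹ : ℝ) : ℂ)) ∧
      IsBoundary W (Pool.Agent.TH345.ET.bv b (Pool.Agent.TH345.ET.hE W)) ∧
      ∀ l, IsBoundary W l →
        l =ᵐ[volume] Pool.Agent.TH345.ET.bv b (Pool.Agent.TH345.ET.hE W) := by
  have hlf : ∀ v s, localFactor W v s = Pool.Agent.TH339.MP.elf W v s := by
    intro v s
    have h1 : (Nat.card {xy : (𝓞 K ⧸ v.asIdeal) × (𝓞 K ⧸ v.asIdeal) //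
            ((W v).map (Ideal.Quotient.mk v.asIdeal)).toAffine.Equation xy.1 xy.2}) =
        Pool.Agent.TH339.MP.affc ((W v).map (Ideal.Quotient.mk v.asIdeal)) := by
      unfold Pool.Agent.TH339.MP.affc
      refine Nat.card_congr (Equiv.subtypeEquivRight fun q => ?_)
      exact WeierstrassCurve.Affine.equation_iff ..
    unfold localFactor Pool.Agent.TH339.MP.elf Pool.Agent.TH339.MP.lfac Pool.Agent.TH339.MP.av
      Pool.Agent.TH339.MP.nm
    rw [h1]
    push_cast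
    rfl
  have hL : ∀ s, LSeries W s = ∏' v, Pool.Agent.TH339.MP.elf W v s :=
    fun s => tprod_congr fun v => hlf v s
  obtain ⟨b, hb, hprod, hexpl⟩ := Pool.Agent.U823.JL.elf_hasProd_expl W
  have hLb : ∀ s : ℂ, 3 / 2 < s.re → LSeries W s =
      Pool.Agent.TH345.ET.hE W (s - 1 / 2) *
        Complex.exp (Pool.Agent.TH339.MP.FF b (s - 1 / 2)) := by
    intro s hs
    have h1 : 1 < (s - 1 / 2).re := by
      have : (s - 1 / 2).re = s.re - 1 / 2 := by simp
      rw [this]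
      linarith
    have h2 := hprod _ h1
    rw [sub_add_cancel] at h2
    rw [hL, h2.tprod_eq]
  have hsub : ∀ τ : ℝ, edge τ - 1 / 2 = Pool.Agent.TH345.ET.ep τ := by
    intro τ
    unfold edge Pool.Agent.TH345.ET.ep
    ring
  have hdim := (Pool.Agent.TH339.MP.boundary hb).2.1
  have hB : IsBoundary W (Pool.Agent.TH345.ET.bv b (Pool.Agent.TH345.ET.hE W)) := by
    refine ⟨_, hdim, fun τ hτ C => ?_⟩
    have h5 := (Complex.continuous_exp.tendsto _).comp (Pool.Agent.TH339.MP.bl_angle hb hτ C)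
    have h6 : Tendsto (fun s : ℂ => s - edge τ) (𝓝[angle τ C] (edge τ))
        (𝓝[{z : ℂ | 0 < z.re ∧ ‖z‖ ≤ C * z.re}] 0) := by
      rw [tendsto_nhdsWithin_iff]
      constructor
      · have h7 : Tendsto (fun s : ℂ => s - edge τ) (𝓝 (edge τ)) (𝓝 (edge τ - edge τ)) :=
          (continuous_id.sub continuous_const).tendsto _
        rw [sub_self] at h7
        exact h7.mono_left nhdsWithin_le_nhds
      · filter_upwards [self_mem_nhdsWithin] with s hs
        have hre : (s - edge τ).re = s.re - 3 / 2 := by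
          unfold edge
          simp
        refine ⟨?_, ?_⟩
        · rw [hre]
          linarith [hs.1]
        · rw [hre]
          exact hs.2
    have h7 : Tendsto (fun s : ℂ => Pool.Agent.TH345.ET.hE W (s - 1 / 2)) (𝓝[angle τ C] (edge τ))
        (𝓝 (Pool.Agent.TH345.ET.hE W (Pool.Agent.TH345.ET.ep τ))) := by
      have h8 : Tendsto (fun s : ℂ => s - 1 / 2) (𝓝 (edge τ)) (𝓝 (edge τ - 1 / 2)) :=
        (continuous_id.sub continuous_const).tendsto _
      rw [hsub] at h8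
      exact (((Pool.Agent.TH345.ET.hE_analytic W τ).continuousAt.tendsto).comp h8).mono_left
        nhdsWithin_le_nhds
    refine (h7.mul (h5.comp h6)).congr' ?_
    filter_upwards [self_mem_nhdsWithin] with s hs
    rw [hLb s hs.1]
    simp only [Function.comp_apply]
    congr 3
    unfold edge
    ring
  refine ⟨b, hb, fun p hp => by rw [hexpl p hp, traceSum_eq], hB, fun l hl => ?_⟩
  obtain ⟨N, hN, h1⟩ := hl
  obtain ⟨N', hN', h2⟩ := hB
  refine Pool.Agent.U823.UA.ae_eq_of_boundary (e := edge) (A := angle) ?_ hN hN' h1 h2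
  intro τ
  have hre : (edge τ).re = 3 / 2 := by
    unfold edge
    simp
  unfold angle
  rw [hre]

/-- **Joint means over all intervals, and one window.** -/
theorem result {d : ℕ} (hd1 : 1 ≤ d) : ∃ Λ : ℝ → ℝ, (∀ η, 0 < η → 0 < Λ η) ∧
    ∀ (n : ℕ) (E : Fin n → WeierstrassCurve ℚ) (K : Fin n → Type) [∀ j, Field (K j)]
      [∀ j, NumberField (K j)]
      (W : ∀ j, HeightOneSpectrum (𝓞 (K j)) → WeierstrassCurve (𝓞 (K j))),
      (∀ j, (E j).IsElliptic) → (∀ j, Module.finrank ℚ (K j) ≤ d) →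
      (∀ j, MinimalModels ((E j).map (algebraMap ℚ (K j))) (W j)) →
      (∃ l : Fin n → ℝ → ℂ, ∀ j, IsBoundary (W j) (l j)) ∧
      ∀ l : Fin n → ℝ → ℂ, (∀ j, IsBoundary (W j) (l j)) →
        (∀ (c : Fin n → ℝ) (F : (Fin n → ℝ) → ℝ), ∑ j, |c j| ≤ 1 →
          (∀ x y, |F x - F y| ≤ ∑ j, |c j| * |x j - y j|) → ∃ μ : ℝ, ∀ η, 0 < η → ∀ t H : ℝ,
          Λ η ≤ H → |H⁻¹ * (∫ u in t..(t + H), F fun j => Real.log ‖l j u‖) - μ| ≤ η) ∧
        (∀ c : Fin n → ℝ, 8 * d * ∑ j, |c j| ≤ 1 → ∃ μ : ℝ, ∀ η, 0 < η → ∀ t H : ℝ, Λ η ≤ H →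
          |H⁻¹ * (∫ u in t..(t + H), ∏ j, ‖l j u‖ ^ c j) - μ| ≤ η) ∧
        (∀ c : Fin n → ℝ, ∑ j, |c j| ≤ 1 → ∀ η, 0 < η → ∀ a : ℝ,
          (∀ x ∈ Set.Icc a (a + Λ η), ∫ u in x..(x + 1), |∑ j, c j * Real.log ‖l j u‖| ≤ η) →
          (∀ t : ℝ, ∫ u in t..(t + 1), |∑ j, c j * Real.log ‖l j u‖| ≤ 2 * η) ∧
          ∀ p : ℕ, p.Prime → 5 ≤ p →
            |∑ j, c j * traceSum (W j) p| ≤ 4 * η * (p : ℝ) ^ (3 / 2 : ℝ)) ∧
        ∀ m : Fin n → ℤ, ∀ η, 0 < η → ∀ a : ℝ,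
          (∀ x ∈ Set.Icc a (a + Λ η),
            ∫ u in x..(x + 1), |∑ j, m j * Real.log ‖l j u‖| ≤ η * ∑ j, |(m j : ℝ)|) →
          ∀ p : ℕ, p.Prime → 5 ≤ p → 4 * η * (∑ j, |(m j : ℝ)|) * (p : ℝ) ^ (3 / 2 : ℝ) < 1 →
            ∑ j, m j * traceSum (W j) p = 0 := by
  classical
  obtain ⟨Λ₁, hΛ₁, hap⟩ := Pool.Agent.U823.JL.family_ap d
  set Λ : ℝ → ℝ := fun η =>
    max (Λ₁ η) (max 1 (16 * ((2304000 * (d + 1)) * (Λ₁ (η / 16) + 1)) / η)) with hΛdef
  have hΛ1 : ∀ η, 1 ≤ Λ η := fun η => (le_max_left _ _).trans (le_max_right _ _)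
  have hΛ0 : ∀ η, Λ₁ η ≤ Λ η := fun η => le_max_left _ _
  have hΛ2 : ∀ η, 0 < η → ∀ H, Λ η ≤ H →
      16 * ((2304000 * ((d : ℝ) + 1)) * (Λ₁ (η / 16) + 1)) ≤ η * H := by
    intro η hη H hH
    have h1 : 16 * ((2304000 * ((d : ℝ) + 1)) * (Λ₁ (η / 16) + 1)) / η ≤ H :=
      ((le_max_right _ _).trans (le_max_right _ _)).trans hH
    rw [div_le_iff₀ hη] at h1
    linarith
  refine ⟨Λ, fun η _ => lt_of_lt_of_le one_pos (hΛ1 η), ?_⟩
  intro n E K _ _ W _ hdeg _
  choose b hb hexpl hB huniq using fun j => structure_thm (W j)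
  refine ⟨⟨_, hB⟩, fun l hl => ?_⟩
  have hdr : ∀ j, (Module.finrank ℚ (K j) : ℝ) ≤ d := fun j => by exact_mod_cast hdeg j
  have hdd : (1 : ℝ) ≤ d := by exact_mod_cast hd1
  have hae : ∀ᵐ u : ℝ, ∀ j, l j u = Pool.Agent.TH345.ET.bv (b j) (Pool.Agent.TH345.ET.hE (W j)) u :=
    ae_all_iff.2 fun j => huniq j (l j) (hl j)
  set G : Fin n → ℝ → ℝ := fun j u => Pool.Agent.U823.UA.Lg (W j) (b j) u with hG
  have hm : ∀ j, AEMeasurable (G j) := fun j => Pool.Agent.U823.UA.Lg_meas (hb j)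
  have hi : ∀ j a e, IntervalIntegrable (G j) volume a e :=
    fun j a e => Pool.Agent.U823.UA.Lg_integrable (hb j) a e
  have hlog : ∀ᵐ u : ℝ, (fun j => Real.log ‖l j u‖) = fun j => G j u := by
    filter_upwards [hae] with u hu
    funext j
    rw [hu j]
    rfl
  have hbd : ∀ j t, ∫ u in t..(t + 1), |G j u| ≤ 2304000 * ((d : ℝ) + 1) := by
    intro j t
    refine (Pool.Agent.U823.UA.Lg_bound (W := W j) (hb j) t).trans ?_
    have := hdr j
    linarith
  have hap1 : ∀ ε, 0 < ε → ∀ a : ℝ, ∃ τ ∈ Set.Icc a (a + Λ₁ ε),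
      ∀ j t, ∫ u in t..(t + 1), |G j (u + τ) - G j u| ≤ ε := by
    intro ε hε a
    obtain ⟨τ, hτ, h⟩ := hap ε hε a
    exact ⟨τ, hτ, fun j t => (h (K j) (W j) (b j) (hdeg j) (hb j) t).2⟩
  have hI : ∀ (φ : (Fin n → ℝ) → ℝ) (a e : ℝ), ∫ u in a..e, φ (fun j => Real.log ‖l j u‖) =
      ∫ u in a..e, φ (fun j => G j u) := by
    intro φ a e
    refine intervalIntegral.integral_congr_ae ?_
    filter_upwards [hlog] with u hu _
    rw [hu]
  have hwin : ∀ c : Fin n → ℝ, ∑ j, |c j| ≤ 1 → ∀ η, 0 < η → ∀ a : ℝ,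
      (∀ x ∈ Set.Icc a (a + Λ η), ∫ u in x..(x + 1), |∑ j, c j * Real.log ‖l j u‖| ≤ η) →
      (∀ t : ℝ, ∫ u in t..(t + 1), |∑ j, c j * Real.log ‖l j u‖| ≤ 2 * η) ∧
      ∀ p : ℕ, p.Prime → 5 ≤ p →
        |∑ j, c j * traceSum (W j) p| ≤ 4 * η * (p : ℝ) ^ (3 / 2 : ℝ) := by
    intro c hc1 η hη a h
    have hF : ∀ x y : Fin n → ℝ, |(∑ j, c j * x j) - ∑ j, c j * y j| ≤ ∑ j, |c j| * |x j - y j| := by
      intro x y
      rw [← Finset.sum_sub_distrib]
      refine (Finset.abs_sum_le_sum_abs _ _).trans (le_of_eq ?_)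
      exact Finset.sum_congr rfl fun j _ => by rw [← mul_sub, abs_mul]
    have h1 : ∀ x ∈ Set.Icc a (a + Λ₁ η), ∫ u in x..(x + 1), |∑ j, c j * G j u| ≤ η := by
      intro x hx
      have h2 := h x ⟨hx.1, hx.2.trans (by linarith [hΛ0 η])⟩
      rwa [hI fun z => |∑ j, c j * z j|] at h2
    have h3 : ∀ t, ∫ u in t..(t + 1), |∑ j, c j * G j u| ≤ 2 * η := by
      intro t
      have h4 := Pool.Agent.U823.JL.fam_window (c := fun j => |c j|) (F := fun z => ∑ j, c j * z j)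
        hm hi (fun j => abs_nonneg _) hc1 hF hη.le (hap1 η hη) h1 t
      linarith
    refine ⟨fun t => ?_, fun p hp hp5 => ?_⟩
    · rw [hI fun z => |∑ j, c j * z j|]
      exact h3 t
    · have h4 := Pool.Agent.U823.JL.coef_le (W := W) (b := b) hb (c := c) h3
        (p := ⟨p, hp⟩) hp5
      have h5 : ∑ j, (c j : ℂ) * b j (⟨p, hp⟩, 0) =
          (((∑ j, c j * traceSum (W j) p) * (Real.sqrt p)⁻¹ : ℝ) : ℂ) := by
        rw [Finset.sum_mul, Complex.ofReal_sum]
        refine Finset.sum_congr rfl fun j _ => ?_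
        rw [hexpl j ⟨p, hp⟩ hp5]
        push_cast
        ring
      rw [h5, Complex.norm_real, Real.norm_eq_abs, abs_mul] at h4
      have hp0 : (0 : ℝ) < p := by exact_mod_cast hp.pos
      have hs : 0 < Real.sqrt p := Real.sqrt_pos.2 hp0
      rw [abs_of_pos (inv_pos.2 hs), ← div_eq_mul_inv, div_le_iff₀ hs] at h4
      have e1 : (p : ℝ) ^ (3 / 2 : ℝ) = p * Real.sqrt p := by
        rw [Real.sqrt_eq_rpow, show (3 / 2 : ℝ) = 1 + 1 / 2 by norm_num, Real.rpow_add hp0,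
          Real.rpow_one]
      rw [e1]
      refine h4.trans (le_of_eq ?_)
      show 2 * (2 * η) * (p : ℝ) * Real.sqrt p = _
      ring
  refine ⟨fun c F hc1 hF => ?_, fun c hc => ?_, hwin, fun m η hη a h p hp hp5 hlt => ?_⟩
  · obtain ⟨μ, hμ⟩ := Pool.Agent.U823.JL.fam_mean hm hi (by positivity) hbd
      (fun j => abs_nonneg (c j)) hc1 Λ₁ (fun ε hε => (hΛ₁ ε hε).le) hap1 hF
    refine ⟨μ, fun η hη t H hH => ?_⟩
    have h2 := hμ η hη t H ((hΛ1 η).trans hH) (hΛ2 η hη H hH)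
    rw [hI fun z => F z]
    exact h2
  · have hexp : ∀ j (r : ℝ), 4 * (d : ℝ) * |r| ≤ 1 → 4 * Module.finrank ℚ (K j) * |r| ≤ 1 := by
      intro j r hr
      refine le_trans ?_ hr
      exact mul_le_mul_of_nonneg_right (by linarith [hdr j]) (abs_nonneg r)
    obtain ⟨μ, hμ⟩ := Pool.Agent.U823.JL.pow_mean (G := G) hm (R := 4 * d) (by linarith)
      (fun j r hr a e => Pool.Agent.U823.UA.pow_integrable (hb j) (hexp j r hr) a e)
      (fun j r hr t => Pool.Agent.U823.UA.pow_bound (hb j) (hexp j r hr) t)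
      (c := c) (by linarith) Λ₁ (fun ε hε => (hΛ₁ ε hε).le) (by
        intro ε hε a
        obtain ⟨τ, hτ, h⟩ := hap ε hε a
        exact ⟨τ, hτ, fun j t => (h (K j) (W j) (b j) (hdeg j) (hb j) t).1⟩)
    refine ⟨μ, fun η hη t H hH => ?_⟩
    have h2 := hμ η hη t H ((hΛ1 η).trans hH) (by
      refine le_trans ?_ (hΛ2 η hη H hH)
      have h3 := hΛ₁ (η / 16) (by positivity)
      have h4 : (576001 : ℝ) ≤ 2304000 * ((d : ℝ) + 1) := by linarith
      exact mul_le_mul_of_nonneg_left (mul_le_mul_of_nonneg_right h4 (by linarith)) (by norm_num))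
    have h5 : ∫ u in t..(t + H), ∏ j, ‖l j u‖ ^ c j =
        ∫ u in t..(t + H), Real.exp (∑ j, c j * G j u) := by
      refine intervalIntegral.integral_congr_ae ?_
      filter_upwards [hae] with u hu _
      rw [Real.exp_sum]
      refine Finset.prod_congr rfl fun j _ => ?_
      rw [hu j]
      exact Pool.Agent.U823.UA.pow_eq_exp _ _
    rw [h5]
    exact h2
  · set M : ℝ := ∑ j, |(m j : ℝ)| with hM
    have hM0 : 0 ≤ M := Finset.sum_nonneg fun j _ => abs_nonneg _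
    rcases hM0.eq_or_lt with h0 | h0
    · have h1 : ∀ j, m j = 0 := by
        intro j
        have h2 := (Finset.sum_eq_zero_iff_of_nonneg (fun j _ => abs_nonneg ((m j : ℝ)))).1 h0.symm
          j (Finset.mem_univ j)
        exact_mod_cast abs_eq_zero.1 h2
      simp [h1]
    · have h1 := (hwin (fun j => (m j : ℝ) / M) (by
        simp_rw [abs_div, abs_of_pos h0]
        rw [← Finset.sum_div, ← hM, div_self h0.ne']) η hη a (by
        intro x hx
        have h2 := h x hx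
        have e1 : ∀ u : ℝ, |∑ j, (m j : ℝ) / M * Real.log ‖l j u‖| =
            |∑ j, (m j : ℝ) * Real.log ‖l j u‖| / M := by
          intro u
          rw [← abs_of_pos h0, ← abs_div, abs_of_pos h0, Finset.sum_div]
          congr 1
          exact Finset.sum_congr rfl fun j _ => by ring
        simp_rw [e1]
        rw [intervalIntegral.integral_div, div_le_iff₀ h0]
        exact h2)).2 p hp hp5
      have e2 : ∑ j, (m j : ℝ) / M * (traceSum (W j) p : ℝ) =
          ((∑ j, m j * traceSum (W j) p : ℤ) : ℝ) / M := by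
        push_cast
        rw [Finset.sum_div]
        exact Finset.sum_congr rfl fun j _ => by ring
      rw [e2, abs_div, abs_of_pos h0, div_le_iff₀ h0] at h1
      have h3 : |((∑ j, m j * traceSum (W j) p : ℤ) : ℝ)| < 1 := by
        refine lt_of_le_of_lt h1 (lt_of_le_of_lt (le_of_eq ?_) hlt)
        ring
      have h4 : |∑ j, m j * traceSum (W j) p| < 1 := by exact_mod_cast h3
      exact Int.abs_lt_one_iff.1 h4

end Pool.Agent.Results.MP_bf9450_nt.JointLaw
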