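import Pool.Agent.U998.OQ.Prod

/-!
# One-sided criteria for the quotients `L(E/K, s) / L(E/ℚ, s)` and for all products `∏ L(E/K_i, s)^(m_i)`

`E` is an elliptic curve over `ℚ`, `K_i` are finitely many number fields, `m_i` integers (of both signs), and
`f(s) = ∏_i L(E/K_i, s)^(m_i)` for `Re s > 3/2`.  The most important examples are `L(E/K, s) / L(E/ℚ, s)` (the analogue for `E` of the
quotient `ζ_K / ζ` of Dedekind's conjecture), `L(E/K, s)` itself, and the powers of the twists `L(E ⊗ ρ, s)` by the Artin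
representations `ρ` with rational character.  As `m_i` may be negative, the continuation of `f` does not follow from Q1.

For a point `a > 3/2` and `c < 3/2` the numbers

  `A_n(a, c) = ∑_{k=1}^{n} C(n-1, k-1) (2(a-c))^k f^{(k)}(a) / k!`, `A_0 = f(a)`,

are finite combinations of the derivatives of `f` at the point `a`; in terms of the Dirichlet coefficients `x_N` of `f`,

  `A_n(a, c) = ∑_N x_N N^{-a} P_n(2(a-c) log N)`, `P_n(t) = ∑_{k=1}^{n} C(n-1, k-1) (-t)^k / k!` (a Laguerre polynomial).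

The theorem: `f` extends holomorphically to `Re s > c` if and only if `A_n(a, c) ≥ - exp(o(n))` (or `≤ exp(o(n))`: a bound on one side
is enough), and meromorphically if and only if finite combinations of consecutive `A_n(a, c)` are bounded below in this way.  If one of
the exponents is `1`, say that of `L(E/K, s)`, and the continuation of the other factors is known (for `L(E/ℚ, s)` and for abelian
fields by the modularity theorem), then the one-sided bounds for `f` give the holomorphic continuation of `L(E/K, s)`, and the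
meromorphic continuation of `L(E/K, s)` is equivalent to the one-sided bounds for the combinations of the numbers of `f`.
-/

set_option autoImplicit false

namespace Pool.Agent.Results.MP_bf9450_nt.OneSidedQuotients

open NumberField IsDedekindDomain Filter Topology

/-- `W v` is, for every finite place `v`, an integral model of `E` with discriminant minimal at
`v`. -/
def MinimalModels {K : Type} [Field K] [NumberField K] (E : WeierstrassCurve K)
    (W : HeightOneSpectrum (𝓞 K) → WeierstrassCurve (𝓞 K)) : Prop :=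
  ∀ v : HeightOneSpectrum (𝓞 K),
    (∃ C : WeierstrassCurve.VariableChange K, C • (W v).map (algebraMap (𝓞 K) K) = E) ∧
    ∀ W' : WeierstrassCurve (𝓞 K),
      (∃ C : WeierstrassCurve.VariableChange K, C • W'.map (algebraMap (𝓞 K) K) = E) →
      ∀ n : ℕ, (W v).Δ ∈ v.asIdeal ^ n → W'.Δ ∈ v.asIdeal ^ n

open Classical in
/-- The Euler factor at `v`, `(1 - a_v Nv^{-s} + Nv^{1-2s})⁻¹` if the reduction at `v` is good and
`(1 - a_v Nv^{-s})⁻¹` if it is bad, where `a_v` is `Nv` minus the number of affine points of the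
reduction of `W v` (for bad reduction this is `1`, `-1`, `0` in the split multiplicative, non-split
multiplicative, additive case). -/
noncomputable def localFactor {K : Type} [Field K] [NumberField K]
    (W : HeightOneSpectrum (𝓞 K) → WeierstrassCurve (𝓞 K)) (v : HeightOneSpectrum (𝓞 K))
    (s : ℂ) : ℂ :=
  (1 - ((Ideal.absNorm v.asIdeal : ℂ)
        - (Nat.card {xy : (𝓞 K ⧸ v.asIdeal) × (𝓞 K ⧸ v.asIdeal) //
            ((W v).map (Ideal.Quotient.mk v.asIdeal)).toAffine.Equation xy.1 xy.2} : ℂ))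
        * (Ideal.absNorm v.asIdeal : ℂ) ^ (-s)
    + (if (W v).Δ ∈ v.asIdeal then 0 else (Ideal.absNorm v.asIdeal : ℂ))
        * (Ideal.absNorm v.asIdeal : ℂ) ^ (-2 * s))⁻¹

/-- The `L`-function of an elliptic curve over `K`, as the Euler product over all finite places. -/
noncomputable def ellipticL {K : Type} [Field K] [NumberField K]
    (W : HeightOneSpectrum (𝓞 K) → WeierstrassCurve (𝓞 K)) (s : ℂ) : ℂ :=
  ∏' v : HeightOneSpectrum (𝓞 K), localFactor W v s

/-- `f` extends from `Re s > 3/2` to a holomorphic function on `Re s > c`. -/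
def HolomorphicHalf (f : ℂ → ℂ) (c : ℝ) : Prop :=
  ∃ g : ℂ → ℂ, DifferentiableOn ℂ g {s : ℂ | c < s.re} ∧ ∀ s : ℂ, 3 / 2 < s.re → g s = f s

/-- `f` extends from `Re s > 3/2` to a meromorphic function on `Re s > c`. -/
def MeromorphicHalf (f : ℂ → ℂ) (c : ℝ) : Prop :=
  ∃ g : ℂ → ℂ, MeromorphicOn g {s : ℂ | c < s.re} ∧ ∀ s : ℂ, 3 / 2 < s.re → g s = f s

/-- `f` extends from `Re s > 3/2` to an entire function. -/
def Entire (f : ℂ → ℂ) : Prop :=
  ∃ g : ℂ → ℂ, Differentiable ℂ g ∧ ∀ s : ℂ, 3 / 2 < s.re → g s = f s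

/-- `f` extends from `Re s > 3/2` to a meromorphic function on `ℂ`. -/
def MeromorphicAll (f : ℂ → ℂ) : Prop :=
  ∃ g : ℂ → ℂ, MeromorphicOn g Set.univ ∧ ∀ s : ℂ, 3 / 2 < s.re → g s = f s

/-- `A_n(a, c) = ∑_{k=1}^{n} C(n-1, k-1) (2(a-c))^k f^{(k)}(a) / k!`, `A_0(a, c) = f(a)` (real parts; for the functions below the
derivatives at `a` are real). -/
noncomputable def A (f : ℂ → ℂ) (a c : ℝ) (n : ℕ) : ℝ :=
  if n = 0 then (f a).re else
    ∑ k ∈ Finset.range n, ((n - 1).choose k : ℝ) * (2 * (a - c)) ^ (k + 1) *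
      ((iteratedDeriv (k + 1) f a).re / (k + 1).factorial)

/-- The Laguerre weight `P_n(t) = ∑_{k=1}^{n} C(n-1, k-1) (-t)^k / k!`, `P_0 = 1`. -/
noncomputable def P (n : ℕ) (t : ℝ) : ℝ :=
  if n = 0 then 1 else ∑ k ∈ Finset.range n, ((n - 1).choose k : ℝ) * ((-t) ^ (k + 1) / (k + 1).factorial)

/-- For each `ε > 0` there is a `C` with `B_n ≥ - C exp(ε n)` for all `n`. -/
def Lower (B : ℕ → ℝ) : Prop := ∀ ε : ℝ, 0 < ε → ∃ C : ℝ, ∀ n : ℕ, -(C * Real.exp (ε * n)) ≤ B n

/-- For each `ε > 0` there is a `C` with `B_n ≤ C exp(ε n)` for all `n`. -/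
def Upper (B : ℕ → ℝ) : Prop := ∀ ε : ℝ, 0 < ε → ∃ C : ℝ, ∀ n : ℕ, B n ≤ C * Real.exp (ε * n)

/-- For each `ε > 0` there is a `C` with `|B_n| ≤ C exp(ε n)` for all `n`. -/
def Bounded (B : ℕ → ℝ) : Prop := ∀ ε : ℝ, 0 < ε → ∃ C : ℝ, ∀ n : ℕ, |B n| ≤ C * Real.exp (ε * n)

/-- The combination `∑_{j + k = n} p_j B_k = p_0 B_n + p_1 B_{n-1} + ...` of consecutive terms of a sequence. -/
def combination (p : Polynomial ℝ) (B : ℕ → ℝ) (n : ℕ) : ℝ :=
  ∑ q ∈ Finset.HasAntidiagonal.antidiagonal n, p.coeff q.1 * B q.2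

/-- For each `ε > 0` there are a nonzero real polynomial `p` and a `C` with `∑_j p_j B_{n-j} ≥ - C exp(ε n)` for all `n`. -/
def LowerComb (B : ℕ → ℝ) : Prop :=
  ∀ ε : ℝ, 0 < ε → ∃ p : Polynomial ℝ, p ≠ 0 ∧ ∃ C : ℝ, ∀ n : ℕ, -(C * Real.exp (ε * n)) ≤ combination p B n

section
variable {ι : Type} [Fintype ι] {K : ι → Type} [∀ i, Field (K i)] [∀ i, NumberField (K i)]

/-- `f(s) = ∏_{i ∈ J} L(E/K_i, s)^(m_i)`. -/
noncomputable def Lprod (W : ∀ i, HeightOneSpectrum (𝓞 (K i)) → WeierstrassCurve (𝓞 (K i))) (m : ι → ℤ)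
    (J : Finset ι) (s : ℂ) : ℂ :=
  ∏ i ∈ J, ellipticL (W i) s ^ m i

end

section lemmas

open Pool.Agent.U156.OS (LE HP LE_diff)

lemma hL {K : Type} [Field K] [NumberField K] (W : HeightOneSpectrum (𝓞 K) → WeierstrassCurve (𝓞 K)) :
    ellipticL W = LE W := by
  funext s
  refine tprod_congr fun v => ?_
  have h1 : (Nat.card {xy : (𝓞 K ⧸ v.asIdeal) × (𝓞 K ⧸ v.asIdeal) //
          ((W v).map (Ideal.Quotient.mk v.asIdeal)).toAffine.Equation xy.1 xy.2}) =
      Pool.Agent.TH339.MP.affc ((W v).map (Ideal.Quotient.mk v.asIdeal)) := by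
    unfold Pool.Agent.TH339.MP.affc
    refine Nat.card_congr (Equiv.subtypeEquivRight fun q => ?_)
    exact WeierstrassCurve.Affine.equation_iff ..
  unfold localFactor Pool.Agent.TH339.MP.elf Pool.Agent.TH339.MP.lfac Pool.Agent.TH339.MP.av
    Pool.Agent.TH339.MP.nm
  rw [h1]
  push_cast
  rfl

/-- the facts for a function which is real on the real line -/
theorem core {f : ℂ → ℂ} (hd : DifferentiableOn ℂ f (HP (3 / 2)))
    (hr : ∀ s : ℂ, 3 / 2 < s.re → f ((starRingEnd ℂ) s) = (starRingEnd ℂ) (f s)) (a : ℝ) (ha : 3 / 2 < a) :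
    ((∀ k : ℕ, (iteratedDeriv k f a).im = 0) ∧
      ∀ x : ℕ → ℝ, (∀ s : ℂ, 3 / 2 < s.re → LSeriesHasSum (fun N => (x N : ℂ)) s (f s)) →
        ∀ (c : ℝ) (n : ℕ), HasSum (fun N : ℕ => x (N + 1) * ((N : ℝ) + 1) ^ (-a) *
          P n (2 * (a - c) * Real.log ((N : ℝ) + 1))) (A f a c n)) ∧
    (∀ c : ℝ, c < 3 / 2 →
      ((HolomorphicHalf f c ↔ Lower (A f a c)) ∧ (HolomorphicHalf f c ↔ Upper (A f a c)) ∧
        (HolomorphicHalf f c ↔ Bounded (A f a c))) ∧
      (¬ HolomorphicHalf f c → ∃ δ : ℝ, 0 < δ ∧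
        (∃ᶠ n : ℕ in atTop, Real.exp (δ * n) < A f a c n) ∧
        ∃ᶠ n : ℕ in atTop, A f a c n < -Real.exp (δ * n))) ∧
    (Entire f ↔ ∀ k : ℕ, Lower (A f a (-(k : ℝ)))) ∧
    (∀ c : ℝ, c < 3 / 2 →
      (MeromorphicHalf f c ↔ LowerComb (A f a c)) ∧
      (¬ MeromorphicHalf f c → ∃ δ : ℝ, 0 < δ ∧ ∀ p : Polynomial ℝ, p ≠ 0 →
        (∃ᶠ n : ℕ in atTop, Real.exp (δ * n) < combination p (A f a c) n) ∧
        ∃ᶠ n : ℕ in atTop, combination p (A f a c) n < -Real.exp (δ * n))) ∧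
    (MeromorphicAll f ↔ ∀ k : ℕ, LowerComb (A f a (-(k : ℝ)))) := by
  have htc : ∀ k : ℕ, (Pool.Agent.U156.OS.tc f a k).re = (iteratedDeriv k f a).re / k.factorial := by
    intro k
    unfold Pool.Agent.U156.OS.tc
    have : ((k.factorial : ℂ))⁻¹ = (((k.factorial : ℝ))⁻¹ : ℝ) := by push_cast; rfl
    rw [this, Complex.re_ofReal_mul, inv_mul_eq_div]
  have hA : ∀ c : ℝ, A f a c = Pool.Agent.U156.OS.AR f a c := by
    intro c
    funext n
    unfold A Pool.Agent.U156.OS.AR Pool.Agent.U156.OS.compR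
    split_ifs
    · simp only [htc]
      simp
    · refine Finset.sum_congr rfl fun k _ => ?_
      simp only [htc]
  have hP : ∀ n t, P n t = Pool.Agent.U156.OS.lag n t := fun n t => rfl
  refine ⟨⟨fun k => ?_, fun x hx c n => ?_⟩, fun c hc => ?_, ?_, fun c hc => ?_, ?_⟩
  · have h1 := Pool.Agent.U156.OS.tc_real hd ha hr k
    have h2 := congrArg Complex.im h1
    rw [Complex.ofReal_im] at h2
    unfold Pool.Agent.U156.OS.tc at h2
    have : ((k.factorial : ℂ))⁻¹ = (((k.factorial : ℝ))⁻¹ : ℝ) := by push_cast; rfl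
    rw [this, Complex.im_ofReal_mul] at h2
    rcases mul_eq_zero.1 h2.symm with h3 | h3
    · exfalso
      rw [inv_eq_zero] at h3
      exact (Nat.cast_ne_zero.2 k.factorial_ne_zero) h3
    · exact h3
  · rw [hA]
    exact Pool.Agent.U156.OS.AR_dir hd ha hx c n
  · rw [hA]
    obtain ⟨h1, h2, h3⟩ := Pool.Agent.U156.OS.hol_half hd hc ha hr
    refine ⟨⟨h1, h2, h3⟩, fun hn => ?_⟩
    have h4 : ¬ Pool.Agent.U156.OS.Upp (Pool.Agent.U156.OS.AR f a c) := fun h => hn (h2.2 h)
    have h5 : ¬ Pool.Agent.U156.OS.Low (Pool.Agent.U156.OS.AR f a c) := fun h => hn (h1.2 h)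
    obtain ⟨δ, hδ, h6⟩ := Pool.Agent.U156.OS.not_upp h4
    obtain ⟨δ', hδ', h7⟩ := Pool.Agent.U156.OS.not_low h5
    refine ⟨min δ δ', lt_min hδ hδ', h6.mono fun n hn => ?_, h7.mono fun n hn => ?_⟩
    · refine lt_of_le_of_lt ?_ hn
      rw [Real.exp_le_exp]
      exact mul_le_mul_of_nonneg_right (min_le_left _ _) (Nat.cast_nonneg n)
    · refine lt_of_lt_of_le hn ?_
      rw [neg_le_neg_iff, Real.exp_le_exp]
      exact mul_le_mul_of_nonneg_right (min_le_right _ _) (Nat.cast_nonneg n)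
  · have h1 := Pool.Agent.U156.OS.hol_all hd (c := fun k : ℕ => -(k : ℝ)) (fun k => by
      have : (0 : ℝ) ≤ k := Nat.cast_nonneg k
      linarith) (fun x => by
      obtain ⟨k, hk⟩ := exists_nat_gt (-x)
      exact ⟨k, by linarith⟩)
    unfold Entire
    rw [h1]
    refine forall_congr' fun k => ?_
    have hk : -(k : ℝ) < 3 / 2 := by
      have : (0 : ℝ) ≤ k := Nat.cast_nonneg k
      linarith
    rw [(Pool.Agent.U156.OS.hol_half hd hk ha hr).1, ← hA]
    rfl
  · rw [hA]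
    obtain ⟨h1, h2⟩ := Pool.Agent.U156.OS.mer_half hd hc ha hr
    refine ⟨h1, fun hn => ?_⟩
    exact Pool.Agent.U156.OS.not_merLow fun h => hn (h1.2 h)
  · have h1 := Pool.Agent.U156.OS.mer_all hd (c := fun k : ℕ => -(k : ℝ)) (fun k => by
      have : (0 : ℝ) ≤ k := Nat.cast_nonneg k
      linarith) (fun x => by
      obtain ⟨k, hk⟩ := exists_nat_gt (-x)
      exact ⟨k, by linarith⟩)
    unfold MeromorphicAll
    rw [h1]
    refine forall_congr' fun k => ?_
    have hk : -(k : ℝ) < 3 / 2 := by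
      have : (0 : ℝ) ≤ k := Nat.cast_nonneg k
      linarith
    rw [(Pool.Agent.U156.OS.mer_half hd hk ha hr).1, ← hA]
    rfl

end lemmas

/-- **One-sided criteria for products of powers of the `L`-functions of a rational elliptic curve over number fields.**
Let `E` be an elliptic curve over `ℚ`, `K_i` (`i ∈ ι`) finitely many number fields, `m_i` integers, `a > 3/2`, and
`f(s) = ∏_i L(E/K_i, s)^(m_i)` for `Re s > 3/2`.

1. All derivatives of `f` at `a` are real, and if `f(s) = ∑ x_N N^{-s}` for `Re s > 3/2`, with real `x_N`, then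
`A_n(a, c) = ∑_N x_N N^{-a} P_n(2(a-c) log N)`.
2. For `c < 3/2`, `f` extends holomorphically to `Re s > c` if and only if the numbers `A_n(a, c)` are at least `- exp(o(n))`, if and
only if they are at most `exp(o(n))`, if and only if `|A_n(a, c)| ≤ exp(o(n))`.  Otherwise infinitely many of them are greater than
`exp(δ n)` and infinitely many are less than `- exp(δ n)`, for a `δ > 0`.
3. `f` extends to an entire function if and only if `A_n(a, -k) ≥ - exp(o(n))` for all integers `k ≥ 0`.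
4. For `c < 3/2`, `f` extends meromorphically to `Re s > c` if and only if for each `ε > 0` there are a nonzero real polynomial `p`
and a `C` with `∑_j p_j A_{n-j}(a, c) ≥ - C exp(ε n)` for all `n`.  Otherwise there is a `δ > 0` such that for every nonzero real
polynomial `p` infinitely many of the numbers `∑_j p_j A_{n-j}(a, c)` are greater than `exp(δ n)` and infinitely many are less than
`- exp(δ n)`.  `f` extends to a meromorphic function on `ℂ` if and only if the condition holds for `c = 0, -1, -2, ...`.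
5. Let `m_o = 1` and let `g(s) = ∏_{i ≠ o} L(E/K_i, s)^(m_i)` be the product of the other factors (for example
`g(s) = L(E/ℚ, s)^(-1)`, where `1/g` is entire by the modularity theorem).  If `1 / g` extends holomorphically to `Re s > c` and the
numbers `A_n(a, c)` of `f` are at least `- exp(o(n))`, then `L(E/K_o, s)` extends holomorphically to `Re s > c`; if `1 / g` extends to
an entire function and this holds for `c = 0, -1, -2, ...`, then `L(E/K_o, s)` extends to an entire function.  If `g` extends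
meromorphically to `Re s > c` (to `ℂ`), then `L(E/K_o, s)` extends meromorphically to `Re s > c` (to `ℂ`) if and only if the numbers of
`f` satisfy the condition of part 4. -/
theorem result (E : WeierstrassCurve ℚ) [E.IsElliptic] (ι : Type) [Fintype ι] [DecidableEq ι]
    (K : ι → Type) [∀ i, Field (K i)] [∀ i, NumberField (K i)]
    (W : ∀ i, HeightOneSpectrum (𝓞 (K i)) → WeierstrassCurve (𝓞 (K i)))
    (_ : ∀ i, MinimalModels (E.map (algebraMap ℚ (K i))) (W i)) (m : ι → ℤ) (a : ℝ) (ha : 3 / 2 < a)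
    (f : ℂ → ℂ) (hf : f = Lprod W m Finset.univ) :
    ((∀ k : ℕ, (iteratedDeriv k f a).im = 0) ∧
      ∀ x : ℕ → ℝ, (∀ s : ℂ, 3 / 2 < s.re → LSeriesHasSum (fun N => (x N : ℂ)) s (f s)) →
        ∀ (c : ℝ) (n : ℕ), HasSum (fun N : ℕ => x (N + 1) * ((N : ℝ) + 1) ^ (-a) *
          P n (2 * (a - c) * Real.log ((N : ℝ) + 1))) (A f a c n)) ∧
    (∀ c : ℝ, c < 3 / 2 →
      ((HolomorphicHalf f c ↔ Lower (A f a c)) ∧ (HolomorphicHalf f c ↔ Upper (A f a c)) ∧
        (HolomorphicHalf f c ↔ Bounded (A f a c))) ∧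
      (¬ HolomorphicHalf f c → ∃ δ : ℝ, 0 < δ ∧
        (∃ᶠ n : ℕ in atTop, Real.exp (δ * n) < A f a c n) ∧
        ∃ᶠ n : ℕ in atTop, A f a c n < -Real.exp (δ * n))) ∧
    (Entire f ↔ ∀ k : ℕ, Lower (A f a (-(k : ℝ)))) ∧
    ((∀ c : ℝ, c < 3 / 2 →
      (MeromorphicHalf f c ↔ LowerComb (A f a c)) ∧
      (¬ MeromorphicHalf f c → ∃ δ : ℝ, 0 < δ ∧ ∀ p : Polynomial ℝ, p ≠ 0 →
        (∃ᶠ n : ℕ in atTop, Real.exp (δ * n) < combination p (A f a c) n) ∧
        ∃ᶠ n : ℕ in atTop, combination p (A f a c) n < -Real.exp (δ * n))) ∧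
    (MeromorphicAll f ↔ ∀ k : ℕ, LowerComb (A f a (-(k : ℝ))))) ∧
    ∀ o : ι, m o = 1 → ∀ g : ℂ → ℂ, g = Lprod W m (Finset.univ.erase o) →
      (∀ c : ℝ, c < 3 / 2 → HolomorphicHalf (fun s => (g s)⁻¹) c → Lower (A f a c) → HolomorphicHalf (ellipticL (W o)) c) ∧
      (Entire (fun s => (g s)⁻¹) → (∀ k : ℕ, Lower (A f a (-(k : ℝ)))) → Entire (ellipticL (W o))) ∧
      (∀ c : ℝ, c < 3 / 2 → MeromorphicHalf g c → (MeromorphicHalf (ellipticL (W o)) c ↔ LowerComb (A f a c))) ∧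
      (MeromorphicAll g → (MeromorphicAll (ellipticL (W o)) ↔ ∀ k : ℕ, LowerComb (A f a (-(k : ℝ))))) := by
  have hfL : f = Pool.Agent.U998.OQ.LP W m := by
    rw [hf]
    funext s
    unfold Lprod Pool.Agent.U998.OQ.LP
    exact Finset.prod_congr rfl fun i _ => by rw [hL]
  have hd : DifferentiableOn ℂ f (Pool.Agent.U156.OS.HP (3 / 2)) := by
    rw [hfL]; exact Pool.Agent.U998.OQ.LP_diff W m
  have hr : ∀ s : ℂ, 3 / 2 < s.re → f ((starRingEnd ℂ) s) = (starRingEnd ℂ) (f s) := by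
    rw [hfL]; exact Pool.Agent.U998.OQ.LP_conj W m
  obtain ⟨h1, h2, h3, h4, h5⟩ := core hd hr a ha
  refine ⟨h1, h2, h3, ⟨h4, h5⟩, fun o ho g hg => ?_⟩
  have hgne : ∀ s : ℂ, 3 / 2 < s.re → g s ≠ 0 := by
    intro s hs
    rw [hg]
    unfold Lprod
    rw [Finset.prod_ne_zero_iff]
    intro i _
    rw [hL]
    exact zpow_ne_zero _ (Pool.Agent.U998.OQ.LE_ne (W i) s hs)
  have hfg : ∀ s : ℂ, f s = ellipticL (W o) s * g s := by
    intro s
    rw [hf, hg]
    unfold Lprod
    rw [← Finset.mul_prod_erase Finset.univ (fun i => ellipticL (W i) s ^ m i) (Finset.mem_univ o), ho, zpow_one]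
  have hLo : ∀ s : ℂ, 3 / 2 < s.re → ellipticL (W o) s = f s * (g s)⁻¹ := by
    intro s hs
    rw [hfg, mul_inv_cancel_right₀ (hgne s hs)]
  refine ⟨fun c hc hG hl => ?_, fun hG hl => ?_, fun c hc hG => ?_, fun hG => ?_⟩
  · obtain ⟨F, hF1, hF2⟩ := (h2 c hc).1.1.2 hl
    obtain ⟨G, hG1, hG2⟩ := hG
    exact ⟨fun s => F s * G s, hF1.mul hG1, fun s hs => by
      show F s * G s = _
      rw [hF2 s hs, hG2 s hs, hLo s hs]⟩
  · obtain ⟨F, hF1, hF2⟩ := h3.2 hl
    obtain ⟨G, hG1, hG2⟩ := hG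
    exact ⟨fun s => F s * G s, hF1.mul hG1, fun s hs => by
      show F s * G s = _
      rw [hF2 s hs, hG2 s hs, hLo s hs]⟩
  · rw [← (h4 c hc).1]
    obtain ⟨G, hG1, hG2⟩ := hG
    constructor
    · rintro ⟨F, hF1, hF2⟩
      exact ⟨fun s => F s * G s, hF1.fun_mul hG1, fun s hs => by
        show F s * G s = _
        rw [hF2 s hs, hG2 s hs, hfg s]⟩
    · rintro ⟨F, hF1, hF2⟩
      exact ⟨fun s => F s * (G s)⁻¹, hF1.fun_mul hG1.fun_inv, fun s hs => by
        show F s * (G s)⁻¹ = _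
        rw [hF2 s hs, hG2 s hs, hLo s hs]⟩
  · rw [← h5]
    obtain ⟨G, hG1, hG2⟩ := hG
    constructor
    · rintro ⟨F, hF1, hF2⟩
      exact ⟨fun s => F s * G s, hF1.fun_mul hG1, fun s hs => by
        show F s * G s = _
        rw [hF2 s hs, hG2 s hs, hfg s]⟩
    · rintro ⟨F, hF1, hF2⟩
      exact ⟨fun s => F s * (G s)⁻¹, hF1.fun_mul hG1.fun_inv, fun s hs => by
        show F s * (G s)⁻¹ = _
        rw [hF2 s hs, hG2 s hs, hLo s hs]⟩

end Pool.Agent.Results.MP_bf9450_nt.OneSidedQuotients
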