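import Pool.Agent.U93.T.Cont

/-!
# Rational elliptic curves over the subfields of extensions with alternating or symmetric groups

Let `E` be an elliptic curve over `ℚ` and `F/ℚ` a finite Galois extension whose group `G` is isomorphic
to `A_n` or `S_n`, `n ≥ 12`: `ι` is an injective homomorphism from `G` to `S_n` whose image contains
`A_n`. If `E` is modular over `F` (for totally real `F` this is known under weak conditions on `E`),
then by solvable descent (Langlands, Arthur–Clozel) the L-functions `L(E/F^U ⊗ ψ, s)` are entire for all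
SOLVABLE subgroups `U` of `G` and all linear characters `ψ` of `U`. Brauer's theorem gives the
meromorphic continuation of the L-functions of `E` over all subfields `K` of `F`, but for nonsolvable
groups `M` of `F/K` poles are not excluded.

Let `B = C(⌊n / q⌋, 2) (q - 1) ^ 2` for some `q = 2 ^ a ≥ 4` (for `q` about `√n` this is
`(1 - o(1)) n ^ 2 / 2`). The result is about the points at which the order of `L(E/F, s)` is less than
`B`, and about the subfields `K = F^M` for the subgroups `M` of `G` none of whose elements has a cycle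
of prime length `l > (n - 4) / 2` or of length `2 ^ j > n - 4` (for example all groups `M` whose orbits
have length at most `(n - 4) / 2`, and by a theorem of Jordan almost all primitive groups). At these
points the L-functions of `E` over all these fields `K`, and their twists by all irreducible characters
of the groups of `F/K`, have no poles, and the order of `L(E/K, s)` depends only on the means of three
functions over `M`: of the sign, of the number of the fixed points, and of their product.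

The proof is based on `Pool.Agent.U93.S`, `Pool.Agent.U93.Q` and `Pool.Agent.U93.T`: let `Θ` be the class
function on `G` with the orders of the L-functions at `s₀` as multiplicities. Its value at `1` is the
order of `L(E/F, s)`, and its multiplicities at the linear characters of the SOLVABLE subgroups are
nonnegative integers. If the value at `1` is less than `B`, then
`Θ(g) = a + b ε(g) + (c + d ε(g)) fix(g) + ∑_C δ(|C|, ε(g) ε(C))`, where `C` runs through the cycles of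
`g` of exceptional length, `ε` is the sign, `fix` the number of fixed points and `c, d` are nonnegative
integers; and solvable groups `W ≤ S_n` with one orbit (or with two orbits, if `n` is a prime or twice a
prime: then all groups `M` as above have at least two orbits) give the lower bounds for `a` and `b`
which are needed for the multiplicities of the trivial character and of the sign of `M`.
-/

set_option autoImplicit false
open NumberField
open Classical

namespace Pool.Agent.Results.MP_bf9450_nt.SubfieldOrders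

open IsDedekindDomain
open Pool.Agent.H541R3.ART (Irr)
open Pool.Agent.R389 (ind IsDecomp)
open Pool.Agent.U93.Q (Exc fx sn)

/-- `M v` is, for every `v`, an integral model of `E` with discriminant minimal at `v`. -/
def MinimalModels {K : Type} [Field K] [NumberField K] (E : WeierstrassCurve K)
    (M : HeightOneSpectrum (𝓞 K) → WeierstrassCurve (𝓞 K)) : Prop :=
  ∀ v : HeightOneSpectrum (𝓞 K),
    (∃ C : WeierstrassCurve.VariableChange K, C • E = (M v).map (algebraMap (𝓞 K) K)) ∧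
    ∀ W : WeierstrassCurve (𝓞 K),
      (∃ C : WeierstrassCurve.VariableChange K, C • E = W.map (algebraMap (𝓞 K) K)) →
        ∀ n : ℕ, (M v).Δ ∈ v.asIdeal ^ n → W.Δ ∈ v.asIdeal ^ n

/-- The Euler product of the problem, computed from the reductions of the models `M v`. -/
noncomputable def LSeries {K : Type} [Field K] [NumberField K]
    (M : HeightOneSpectrum (𝓞 K) → WeierstrassCurve (𝓞 K)) (s : ℂ) : ℂ :=
  ∏' v : HeightOneSpectrum (𝓞 K),
    (1 - ((((Ideal.absNorm v.asIdeal : ℕ) : ℤ) -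
          ((Nat.card {p : (𝓞 K ⧸ v.asIdeal) × (𝓞 K ⧸ v.asIdeal) //
            p.2 ^ 2 + Ideal.Quotient.mk v.asIdeal (M v).a₁ * p.1 * p.2
              + Ideal.Quotient.mk v.asIdeal (M v).a₃ * p.2
            = p.1 ^ 3 + Ideal.Quotient.mk v.asIdeal (M v).a₂ * p.1 ^ 2
              + Ideal.Quotient.mk v.asIdeal (M v).a₄ * p.1
              + Ideal.Quotient.mk v.asIdeal (M v).a₆} : ℕ) : ℤ) : ℤ) : ℂ)
          * ((Ideal.absNorm v.asIdeal : ℕ) : ℂ) ^ (-s)
      + (if (M v).Δ ∈ v.asIdeal then (0 : ℂ) else 1)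
          * ((Ideal.absNorm v.asIdeal : ℕ) : ℂ) ^ (1 - 2 * s))⁻¹

/-- The formal properties of the L-functions `L(E ⊗ χ, s)`, `χ` an irreducible complex character of the
Galois group `G` of `F/ℚ`: they are analytic for `Re s > 3/2`, have a meromorphic continuation to the plane
and do not vanish identically, and for every subgroup `U` of `G` the product of the
`L(E ⊗ χ, s) ^ ⟨χ|_U, 1⟩` is, for `Re s > 3/2`, the Euler product of the problem for `E` over the fixed
field of `U`. -/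
structure TwistFamily (E : WeierstrassCurve ℚ) (F : Type) [Field F] [NumberField F] where
  /-- the function `L(E ⊗ χ, s)` -/
  L : ((F ≃ₐ[ℚ] F) → ℂ) → ℂ → ℂ
  analytic : ∀ χ ∈ Irr (F ≃ₐ[ℚ] F), ∀ s : ℂ, (3 / 2 : ℝ) < s.re → AnalyticAt ℂ (L χ) s
  mero : ∀ χ ∈ Irr (F ≃ₐ[ℚ] F), ∀ s : ℂ, MeromorphicAt (L χ) s ∧ meromorphicOrderAt (L χ) s ≠ ⊤
  euler : ∀ (U : Subgroup (F ≃ₐ[ℚ] F)) (m : ((F ≃ₐ[ℚ] F) → ℂ) → ℕ),
    IsDecomp (ind U (fun _ => 1)) m →
    ∀ M : HeightOneSpectrum (𝓞 (IntermediateField.fixedField U)) →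
        WeierstrassCurve (𝓞 (IntermediateField.fixedField U)),
      MinimalModels (E.map (algebraMap ℚ (IntermediateField.fixedField U))) M →
        ∀ s : ℂ, (3 / 2 : ℝ) < s.re → ∏ᶠ χ ∈ Irr (F ≃ₐ[ℚ] F), L χ s ^ m χ = LSeries M s

variable {E : WeierstrassCurve ℚ} {F : Type} [Field F] [NumberField F]

/-- The L-function of the twist of `E` by the character which contains `χ` with the multiplicity `m χ`,
the product of the `L(E ⊗ χ, s) ^ m χ`. For the multiplicities of the character induced from an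
irreducible character `ψ` of a subgroup `U` this is `L(E/F^U ⊗ ψ, s)`. -/
noncomputable def TwistFamily.prod (T : TwistFamily E F) (m : ((F ≃ₐ[ℚ] F) → ℂ) → ℕ) (s : ℂ) : ℂ :=
  ∏ᶠ χ ∈ Irr (F ≃ₐ[ℚ] F), T.L χ s ^ m χ

/-- the order of this L-function at `s` -/
noncomputable def TwistFamily.order (T : TwistFamily E F) (m : ((F ≃ₐ[ℚ] F) → ℂ) → ℕ) (s : ℂ) :
    WithTop ℤ :=
  meromorphicOrderAt (T.prod m) s

/-- the points at which the order of `L(E/F, s)` is less than `B` -/
def TwistFamily.Low (T : TwistFamily E F) (B : ℕ) : Set ℂ :=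
  {s | ∀ m : ((F ≃ₐ[ℚ] F) → ℂ) → ℕ, IsDecomp (ind (⊥ : Subgroup (F ≃ₐ[ℚ] F)) (fun _ => 1)) m →
    T.order m s < (B : WithTop ℤ)}

/-- No element of `M` has a cycle of exceptional length: a prime `l` with `n < 2 l + 4` or a power of
two `l` with `n < l + 4`. -/
def Free {n : ℕ} (ι : (F ≃ₐ[ℚ] F) →* Equiv.Perm (Fin n)) (M : Subgroup (F ≃ₐ[ℚ] F)) : Prop :=
  ∀ h ∈ M, ∀ l ∈ (ι h).cycleType, ¬ Exc n l

/-- The means of the sign, of the number of the fixed points, and of their product over `M` and over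
`M'` agree. -/
def SameMeans {n : ℕ} (ι : (F ≃ₐ[ℚ] F) →* Equiv.Perm (Fin n)) (M M' : Subgroup (F ≃ₐ[ℚ] F)) : Prop :=
  (∑ᶠ h : M, sn (ι h)) / Nat.card M = (∑ᶠ h : M', sn (ι h)) / Nat.card M' ∧
  (∑ᶠ h : M, (fx (ι h) : ℂ)) / Nat.card M = (∑ᶠ h : M', (fx (ι h) : ℂ)) / Nat.card M' ∧
  (∑ᶠ h : M, sn (ι h) * (fx (ι h) : ℂ)) / Nat.card M
    = (∑ᶠ h : M', sn (ι h) * (fx (ι h) : ℂ)) / Nat.card M'

end Pool.Agent.Results.MP_bf9450_nt.SubfieldOrders

open IsDedekindDomain
open Pool.Agent.H541R3.ART (Irr)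
open Pool.Agent.R389 (ind IsDecomp)
open Pool.Agent.U93.Q (Exc fx sn)
open Pool.Agent.Results.MP_bf9450_nt.SubfieldOrders

/-- Let `E` be an elliptic curve over `ℚ`, `F/ℚ` a finite Galois extension whose group `G` is isomorphic
to `A_n` or `S_n`, `n ≥ 12`, `T` a family of functions with the formal properties of the L-functions
`L(E ⊗ χ, s)`, and `B = C(⌊n / q⌋, 2) (q - 1) ^ 2`, `q = 2 ^ a ≥ 4`. Suppose that `L(E/F^U ⊗ ψ, s)` has
no poles for all SOLVABLE subgroups `U` of `G` and all linear characters `ψ` of `U` (true if `E` is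
modular over `F`).

(1) Let `M` be a subgroup of `G` none of whose elements has a cycle of exceptional length, and
`K = F^M`. There is a meromorphic function on the plane which is equal to `L(E/K, s)` for `Re s > 3/2`
and which is analytic, of order at most the order of `L(E/F, s)`, at all points where `L(E/F, s)` has an
order less than `B`; so it is entire if all zeros of `L(E/F, s)` have orders less than `B`.

(2) The same holds for the L-functions `L(E/K ⊗ χ, s)` for all irreducible characters `χ` of `M`, and at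
these points they are not zero unless `χ` is the trivial character or the sign or occurs in the
permutation character of `M` or in its product with the sign.

(3) If `M'` is another subgroup of this kind and the means of the sign, of the number of fixed points
and of their product over `M` and over `M'` agree, then `L(E/F^M, s)` and `L(E/F^M', s)` have the same
order at all points where `L(E/F, s)` has an order less than `B`. -/
theorem Pool.Agent.Results.MP_bf9450_nt.SubfieldOrders.result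
    (E : WeierstrassCurve ℚ) (_hE : E.IsElliptic)
    (F : Type) [Field F] [NumberField F] [IsGalois ℚ F] (T : TwistFamily E F)
    (hsol : ∀ U : Subgroup (F ≃ₐ[ℚ] F), Group.IsSolvable U → ∀ (ψ : U →* ℂˣ)
      (m : ((F ≃ₐ[ℚ] F) → ℂ) → ℕ), IsDecomp (ind U (fun x => ((ψ x : ℂˣ) : ℂ))) m →
        ∀ s : ℂ, 0 ≤ T.order m s)
    (n : ℕ) (ι : (F ≃ₐ[ℚ] F) →* Equiv.Perm (Fin n)) (hι : Function.Injective ι)
    (hA : alternatingGroup (Fin n) ≤ ι.range) (hn : 12 ≤ n)
    (a B : ℕ) (ha : 2 ≤ a) (hB : B = (n / 2 ^ a).choose 2 * (2 ^ a - 1) ^ 2)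
    (M : Subgroup (F ≃ₐ[ℚ] F)) (hM : Free ι M) :
    (∃ f : ℂ → ℂ, (∀ s, MeromorphicAt f s) ∧
      (∀ W : HeightOneSpectrum (𝓞 (IntermediateField.fixedField M)) →
        WeierstrassCurve (𝓞 (IntermediateField.fixedField M)),
        MinimalModels (E.map (algebraMap ℚ (IntermediateField.fixedField M))) W →
          ∀ s : ℂ, (3 / 2 : ℝ) < s.re → f s = LSeries W s) ∧
      ∀ s ∈ T.Low B, AnalyticAt ℂ f s ∧
        ∀ m, IsDecomp (ind (⊥ : Subgroup (F ≃ₐ[ℚ] F)) (fun _ => 1)) m →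
          meromorphicOrderAt f s ≤ T.order m s) ∧
    (∀ χ ∈ Irr M, ∃ f : ℂ → ℂ, (∀ s, MeromorphicAt f s) ∧
      (∀ m, IsDecomp (ind M χ) m → ∀ s : ℂ, (3 / 2 : ℝ) < s.re → f s = T.prod m s) ∧
      ∀ s ∈ T.Low B, AnalyticAt ℂ f s ∧
        (∀ m, IsDecomp (ind (⊥ : Subgroup (F ≃ₐ[ℚ] F)) (fun _ => 1)) m →
          meromorphicOrderAt f s ≤ T.order m s) ∧
        ((χ ≠ fun _ => 1) → (χ ≠ fun h : M => sn (ι h)) →
          ∑ᶠ h : M, (fx (ι h) : ℂ) * χ h = 0 →
          ∑ᶠ h : M, sn (ι h) * (fx (ι h) : ℂ) * χ h = 0 → f s ≠ 0)) ∧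
    (∀ M' : Subgroup (F ≃ₐ[ℚ] F), Free ι M' → SameMeans ι M M' →
      ∀ m m' : ((F ≃ₐ[ℚ] F) → ℂ) → ℕ, IsDecomp (ind M (fun _ => 1)) m →
        IsDecomp (ind M' (fun _ => 1)) m' → ∀ s ∈ T.Low B, T.order m s = T.order m' s) := by
  have hG : Finite (F ≃ₐ[ℚ] F) := inferInstance
  have hL : ∀ s : ℂ, ∀ χ ∈ Irr (F ≃ₐ[ℚ] F),
      MeromorphicAt (T.L χ) s ∧ meromorphicOrderAt (T.L χ) s ≠ ⊤ := fun s χ hχ => T.mero χ hχ s
  -- the order of the top field
  obtain ⟨mF, hmF⟩ := Pool.Agent.U143.SH.one_decomp (⊥ : Subgroup (F ≃ₐ[ℚ] F))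
  have hlow : ∀ s ∈ T.Low B, ∃ r : ℕ, r < (n / 2 ^ a).choose 2 * (2 ^ a - 1) ^ 2 ∧
      ∀ m : ((F ≃ₐ[ℚ] F) → ℂ) → ℕ, IsDecomp (ind (⊥ : Subgroup (F ≃ₐ[ℚ] F)) (fun _ => 1)) m →
        meromorphicOrderAt (fun z => ∏ᶠ χ ∈ Irr (F ≃ₐ[ℚ] F), T.L χ z ^ m χ) s
          ≤ (r : WithTop ℤ) := by
    intro s hs
    have h1 : ∀ m : ((F ≃ₐ[ℚ] F) → ℂ) → ℕ,
        meromorphicOrderAt (fun z => ∏ᶠ χ ∈ Irr (F ≃ₐ[ℚ] F), T.L χ z ^ m χ) s
          = (Pool.Agent.U143.SH.oo T.L s m : WithTop ℤ) :=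
      fun m => Pool.Agent.U143.SH.order_eq (hL s) m
    have hlt : ∀ m : ((F ≃ₐ[ℚ] F) → ℂ) → ℕ,
        IsDecomp (ind (⊥ : Subgroup (F ≃ₐ[ℚ] F)) (fun _ => 1)) m →
          Pool.Agent.U143.SH.oo T.L s m < (B : ℤ) := by
      intro m hm
      have h2 := hs m hm
      change meromorphicOrderAt (fun z => ∏ᶠ χ ∈ Irr (F ≃ₐ[ℚ] F), T.L χ z ^ m χ) s < _ at h2
      rw [h1 m] at h2
      exact_mod_cast h2
    have h0 : 0 ≤ Pool.Agent.U143.SH.oo T.L s mF := by
      have h2 := hsol ⊥ inferInstance 1 mF (by simpa using hmF) s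
      change 0 ≤ meromorphicOrderAt (fun z => ∏ᶠ χ ∈ Irr (F ≃ₐ[ℚ] F), T.L χ z ^ mF χ) s at h2
      rw [h1 mF] at h2
      exact_mod_cast h2
    have hB0 : 0 < B := by
      have := hlt mF hmF
      omega
    refine ⟨B - 1, by omega, fun m hm => ?_⟩
    rw [h1 m]
    have h3 : Pool.Agent.U143.SH.oo T.L s m ≤ ((B - 1 : ℕ) : ℤ) := by
      have := hlt m hm
      omega
    exact_mod_cast h3
  have hfree : ∀ {N : Subgroup (F ≃ₐ[ℚ] F)}, Free ι N → ∀ χ : N → ℂ,
      Pool.Agent.U93.T.VanI n ι N χ := fun hN χ => Pool.Agent.U93.T.vanI_of_free ι χ hN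
  have hsol' : ∀ s : ℂ, ∀ U : Subgroup (F ≃ₐ[ℚ] F), Group.IsSolvable U → ∀ (ψ : U →* ℂˣ)
      (m : ((F ≃ₐ[ℚ] F) → ℂ) → ℕ), IsDecomp (ind U (fun x => ((ψ x : ℂˣ) : ℂ))) m →
        0 ≤ meromorphicOrderAt (fun z => ∏ᶠ χ ∈ Irr (F ≃ₐ[ℚ] F), T.L χ z ^ m χ) s :=
    fun s U hU ψ m hm => hsol U hU ψ m hm s
  have key := fun (s : ℂ) (r : ℕ) (hrn : r < (n / 2 ^ a).choose 2 * (2 ^ a - 1) ^ 2)
    (hr : ∀ m : ((F ≃ₐ[ℚ] F) → ℂ) → ℕ,
      IsDecomp (ind (⊥ : Subgroup (F ≃ₐ[ℚ] F)) (fun _ => 1)) m →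
        meromorphicOrderAt (fun z => ∏ᶠ χ ∈ Irr (F ≃ₐ[ℚ] F), T.L χ z ^ m χ) s
          ≤ (r : WithTop ℤ)) (χ : M → ℂ) (hχ : χ ∈ Irr M)
    (m : ((F ≃ₐ[ℚ] F) → ℂ) → ℕ) (hm : IsDecomp (ind M χ) m) =>
    Pool.Agent.U93.T.order_chain (hL s) (hsol' s) r 0 (fun _ => ⊥) monotone_const
      (fun _ => inferInstance) rfl inferInstance (fun i hi => absurd hi (Nat.not_lt_zero i)) hr hι hA
      (Pool.Agent.U93.S.small_two hn ha hrn) hn M hχ (hfree hM χ) hm
  -- the continuation
  have main : ∀ χ ∈ Irr M, ∀ m₀, IsDecomp (ind M χ) m₀ → ∃ f : ℂ → ℂ, (∀ s, MeromorphicAt f s) ∧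
      (∀ s : ℂ, (3 / 2 : ℝ) < s.re → f s = T.prod m₀ s) ∧
      ∀ s ∈ T.Low B, AnalyticAt ℂ f s ∧
        (∀ m, IsDecomp (ind (⊥ : Subgroup (F ≃ₐ[ℚ] F)) (fun _ => 1)) m →
          meromorphicOrderAt f s ≤ T.order m s) ∧
        ((χ ≠ fun _ => 1) → (χ ≠ fun h : M => sn (ι h)) →
          ∑ᶠ h : M, (fx (ι h) : ℂ) * χ h = 0 →
          ∑ᶠ h : M, sn (ι h) * (fx (ι h) : ℂ) * χ h = 0 → f s ≠ 0) := by
    intro χ hχ m₀ hm₀
    have hfin : ∀ s, T.prod m₀ s = ∏ X ∈ Pool.Agent.H541R3.ART.irrF (F ≃ₐ[ℚ] F), T.L X s ^ m₀ X :=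
      fun s => Pool.Agent.R389.finprod_irr (fun X => T.L X s ^ m₀ X)
    have hmer : ∀ s, MeromorphicAt (T.prod m₀) s := by
      intro s
      rw [funext hfin]
      refine MeromorphicAt.fun_prod fun X hX => ?_
      exact ((hL s X (Pool.Agent.H541R3.ART.mem_irrF.mp hX)).1).fun_pow _
    have hana : ∀ s ∈ {s : ℂ | (3 / 2 : ℝ) < s.re}, AnalyticAt ℂ (T.prod m₀) s := by
      intro s hs
      rw [funext hfin]
      refine Finset.analyticAt_fun_prod _ fun X hX => ?_
      exact (T.analytic X (Pool.Agent.H541R3.ART.mem_irrF.mp hX) s hs).fun_pow _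
    obtain ⟨f, h1, h2, h3, h4, h5⟩ := Pool.Agent.U93.T.exists_cont hmer hana
    refine ⟨f, h1, h2, fun s hs => ?_⟩
    obtain ⟨r, hrn, hr⟩ := hlow s hs
    obtain ⟨k1, k2⟩ := key s r hrn hr χ hχ m₀ hm₀
    refine ⟨h4 s k1, fun m hm => ?_, fun e1 e2 e3 e4 => h5 s (k2 e1 e2 e3 e4)⟩
    rw [h3 s]
    exact Pool.Agent.U93.T.order_le (hL s) M
      (fun ψ hψ m hm => (key s r hrn hr ψ hψ m hm).1) hχ hm₀ hm
  refine ⟨?_, ?_, ?_⟩
  · obtain ⟨mM, hmM⟩ := Pool.Agent.U143.SH.one_decomp M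
    obtain ⟨f, h1, h2, h3⟩ := main (fun _ => 1) Pool.Agent.U93.T.one_irr mM hmM
    refine ⟨f, h1, fun W hW s hs => ?_, fun s hs => ⟨(h3 s hs).1, (h3 s hs).2.1⟩⟩
    rw [h2 s hs]
    exact T.euler M mM hmM W hW s hs
  · intro χ hχ
    obtain ⟨m₀, hm₀⟩ := Pool.Agent.U93.T.ind_irr_decomp M hχ
    obtain ⟨f, h1, h2, h3⟩ := main χ hχ m₀ hm₀
    refine ⟨f, h1, fun m hm s hs => ?_, h3⟩
    rw [h2 s hs]
    have h5 : ∀ X ∈ Irr (F ≃ₐ[ℚ] F), m X = m₀ X := by
      intro X hX
      have e1 := hm.pr hX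
      have e2 := hm₀.pr hX
      rw [e1] at e2
      exact_mod_cast e2
    exact (finprod_mem_congr rfl fun X hX => by rw [h5 X hX]).symm
  · intro M' hM' hS m m' hm hm' s hs
    obtain ⟨r, hrn, hr⟩ := hlow s hs
    refine Pool.Agent.U93.T.order_mean (hL s) (hsol' s) r 0 (fun _ => ⊥) monotone_const
      (fun _ => inferInstance) rfl inferInstance (fun i hi => absurd hi (Nat.not_lt_zero i)) hr hι hA
      (Pool.Agent.U93.S.small_two hn ha hrn) hn (hfree hM _) (hfree hM' _) ?_ hm hm'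
    intro g hg
    rcases hg with rfl | rfl | rfl
    · exact hS.1
    · exact hS.2.1
    · exact hS.2.2
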